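import Pool.Agent.Q37.BinV.Greedy

/-!
A list of arcs for the whole graph.
-/

namespace Q37.BinV

variable {V : Type*} {G : SimpleGraph V}

lemma Rch.restrict {X : Set V} {a b : V} (h : Rch G X a b) :
    Rch G (X ∩ {v | G.Reachable a v}) a b := by
  induction h with
  | refl => exact Rch.refl _
  | @tail y z h1 h2 ih =>
    have hy : G.Reachable a y := Rch.reachable h1
    exact ih.trans (Rch.adj h2.1 ⟨h2.2.1, hy⟩ ⟨h2.2.2, hy.trans h2.1.reachable⟩)

lemma cond_roots (root child : G.ConnectedComponent → V)
    (hroot : ∀ C, G.connectedComponentMk (root C) = C) (l : List G.ConnectedComponent)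
    (hl : l.Nodup) (hadj : ∀ C ∈ l, G.Adj (root C) (child C)) (E : Set V)
    (hE : ∀ C ∈ l, root C ∉ E) : Cond G (l.map fun C => (root C, child C)) E ∅ := by
  induction l generalizing E with
  | nil => trivial
  | cons C l ih =>
    rw [List.nodup_cons] at hl
    have hsupp : ∀ v ∈ (∅ : Set V) ∪ supp (l.map fun C => (root C, child C)),
        ∃ C' ∈ l, G.connectedComponentMk v = C' := by
      rintro v (h | ⟨a, ha, hv⟩)
      · exact absurd h (Set.notMem_empty _)
      · obtain ⟨C', hC', rfl⟩ := List.mem_map.1 ha
        refine ⟨C', hC', ?_⟩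
        rcases hv with rfl | rfl
        · exact hroot C'
        · exact (SimpleGraph.ConnectedComponent.eq.2
            (hadj C' (List.mem_cons_of_mem _ hC')).symm.reachable).trans (hroot C')
    have hCadj := hadj C List.mem_cons_self
    have hchild : G.connectedComponentMk (child C) = C := by
      conv_rhs => rw [← hroot C]
      exact SimpleGraph.ConnectedComponent.eq.2 hCadj.symm.reachable
    refine ⟨hCadj, hE C List.mem_cons_self, ?_, ?_, ?_⟩
    · intro h
      obtain ⟨C', hC', h'⟩ := hsupp _ h
      exact hl.1 ((hchild.symm.trans h') ▸ hC')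
    · intro j hj _ hr
      obtain ⟨C', hC', h'⟩ := hsupp _ hj
      have h1 : G.connectedComponentMk (child C) = G.connectedComponentMk j :=
        SimpleGraph.ConnectedComponent.eq.2 hr.reachable
      exact hl.1 ((hchild.symm.trans (h1.trans h')) ▸ hC')
    · refine ih hl.2 (fun C' hC' => hadj C' (List.mem_cons_of_mem _ hC')) _ ?_
      rintro C' hC' (h | h)
      · apply hl.1
        have h1 : C' = C := by rw [← hroot C', ← hroot C]; exact congrArg _ h
        exact h1 ▸ hC'
      · exact hE C' (List.mem_cons_of_mem _ hC') h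

/-- A list of arcs satisfying the condition whose sources connect everything. -/
theorem total [Finite V] (G : SimpleGraph V) : ∃ L : List (V × V), Cond G L ∅ ∅ ∧
    ∀ i j, G.Reachable i j → i ≠ j → Rch G (src L ∪ {i, j}) i j := by
  classical
  cases nonempty_fintype V
  have hout : ∀ C : G.ConnectedComponent, ∃ v, G.connectedComponentMk v = C := fun C => by
    induction C using SimpleGraph.ConnectedComponent.ind with
    | _ v => exact ⟨v, rfl⟩
  choose root hroot using hout
  set R : Set V := Set.range root with hR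
  have hRX : ∀ x ∈ (Set.univ : Set V), ∃ r ∈ R, Rch G Set.univ r x := by
    intro x _
    refine ⟨root (G.connectedComponentMk x), ⟨_, rfl⟩, rch_univ ?_⟩
    exact SimpleGraph.ConnectedComponent.eq.1 (hroot _)
  have hRroot : ∀ r ∈ R, ∀ x, G.Reachable r x → r = root (G.connectedComponentMk x) := by
    rintro r ⟨C, rfl⟩ x h
    congr 1
    rw [← hroot C]
    exact SimpleGraph.ConnectedComponent.eq.2 h
  obtain ⟨L, -, h2, h3, h4, h5, h6⟩ := greedy _ Set.univ R rfl (Set.subset_univ _) hRX
  set W := R ∪ supp L with hW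
  -- children of the roots
  have hch : ∀ C : G.ConnectedComponent, ∃ w, ((∃ w', G.Adj (root C) w') → G.Adj (root C) w) ∧
      (w ∉ W → ∀ y ∈ W, ¬ G.Adj (root C) y) := by
    intro C
    by_cases hex : ∃ y ∈ W, G.Adj (root C) y
    · obtain ⟨y, hy, hy'⟩ := hex
      exact ⟨y, fun _ => hy', fun h => absurd hy h⟩
    · push Not at hex
      by_cases hw : ∃ w', G.Adj (root C) w'
      · obtain ⟨w, hw⟩ := hw
        exact ⟨w, fun _ => hw, fun _ => hex⟩
      · exact ⟨root C, fun h => absurd h hw, fun _ => hex⟩
  choose child hch1 hch2 using hch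
  set l : List G.ConnectedComponent :=
    (Finset.univ.filter fun C => ∃ w', G.Adj (root C) w').toList with hl
  have hlmem : ∀ C, C ∈ l ↔ ∃ w', G.Adj (root C) w' := by
    intro C; rw [hl, Finset.mem_toList, Finset.mem_filter]; simp
  have hladj : ∀ C ∈ l, G.Adj (root C) (child C) := fun C hC => hch1 C ((hlmem C).1 hC)
  set L0 := l.map fun C => (root C, child C) with hL0
  set F : Set V := {v | ∃ C ∈ l, v = child C} with hF
  have hsupp0 : supp L0 ⊆ R ∪ F := by
    rintro v ⟨a, ha, hv⟩
    obtain ⟨C, hC, rfl⟩ := List.mem_map.1 ha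
    rcases hv with rfl | rfl
    · exact Or.inl ⟨C, rfl⟩
    · exact Or.inr ⟨C, hC, rfl⟩
  have hcondL : Cond G L ∅ (R ∪ F) := by
    apply h6
    rintro j ⟨C, hC, rfl⟩
    refine ⟨⟨root C, ⟨C, rfl⟩, hladj C hC⟩, fun hjW y hy hyj => ?_⟩
    obtain ⟨r, hr, hry⟩ := h5 y hy.1
    have hrC : r = root C := by
      have h7 := hRroot r hr (child C) (hry.reachable.trans hyj.reachable)
      rw [h7]
      congr 1
      conv_rhs => rw [← hroot C]
      exact SimpleGraph.ConnectedComponent.eq.2 (hladj C hC).symm.reachable
    subst hrC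
    have hyr : y ≠ root C := fun h => hy.2 (h ▸ hr)
    obtain ⟨y', z', hy', _, _, hz'W, hyz'⟩ :=
      hry.enter (A := {v | v ≠ root C}) (fun h => h rfl) hyr
    replace hy' : y' = root C := by
      by_contra h; exact hy' h
    rw [hy'] at hyz'
    exact hch2 C hjW z' hz'W hyz'
  have hcond : Cond G (L ++ L0) ∅ ∅ := by
    apply Cond.append
    · exact hcondL.mono_S (by rw [Set.empty_union]; exact hsupp0)
    · refine cond_roots root child hroot l (Finset.nodup_toList _) hladj _ ?_
      rintro C _ (h | h)
      · exact h2 _ h ⟨C, rfl⟩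
      · exact h
  refine ⟨L ++ L0, hcond, ?_⟩
  intro i j hij hne
  -- the root
  set r := root (G.connectedComponentMk i) with hr
  have hri : G.Reachable r i := SimpleGraph.ConnectedComponent.eq.1 (hroot _)
  have hrj : G.Reachable r j := hri.trans hij
  have hrR : r ∈ R := ⟨_, rfl⟩
  have hnbr : ∃ w', G.Adj r w' := by
    have hex : ∃ x, G.Reachable r x ∧ r ≠ x := by
      by_cases h : r = i
      · exact ⟨j, hrj, fun h' => hne (h.symm.trans h')⟩
      · exact ⟨i, hri, h⟩
    obtain ⟨x, hx, hrx⟩ := hex
    obtain ⟨p⟩ := hx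
    cases p with
    | nil => exact absurd rfl hrx
    | cons h _ => exact ⟨_, h⟩
  have hrsrc : r ∈ src (L ++ L0) := by
    rw [src_append]
    right
    refine ⟨(r, child (G.connectedComponentMk i)), ?_, rfl⟩
    rw [hL0, List.mem_map]
    exact ⟨G.connectedComponentMk i, (hlmem _).2 hnbr, rfl⟩
  have hTsub : (R ∪ src L) ∩ {v | G.Reachable r v} ⊆ src (L ++ L0) := by
    rintro v ⟨hv | hv, hv'⟩
    · have : v = r := by
        rw [hRroot v hv r hv'.symm, hRroot r hrR r (SimpleGraph.Reachable.refl _)]
        congr 1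
        exact congrArg _ (hRroot r hrR r (SimpleGraph.Reachable.refl _)).symm
      rw [this]; exact hrsrc
    · rw [src_append]; exact Or.inl hv
  have key : ∀ t ∈ R ∪ src L, G.Reachable r t → Rch G (src (L ++ L0)) r t := by
    rintro t ht hrt
    rcases ht with ht | ht
    · have : t = r := by
        have e := hRroot t ht t (SimpleGraph.Reachable.refl _)
        rw [e]
        have e2 : G.connectedComponentMk t = G.connectedComponentMk i :=
          SimpleGraph.ConnectedComponent.eq.2 (hrt.symm.trans hri)
        rw [e2]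
      rw [this]; exact Rch.refl _
    · obtain ⟨r', hr', hr't⟩ := h4 t ht
      have e : r' = r := by
        have e1 := hRroot r' hr' t hr't.reachable
        have e2 := hRroot r hrR t hrt
        rw [e1, ← e2]
      rw [e] at hr't
      exact hr't.restrict.mono hTsub
  have key2 : ∀ x, (x = i ∨ x = j) → Rch G (src (L ++ L0) ∪ {i, j}) r x := by
    intro x hx
    have hrx : G.Reachable r x := by
      rcases hx with rfl | rfl
      · exact hri
      · exact hrj
    have hxm : x ∈ src (L ++ L0) ∪ {i, j} := Or.inr (by rcases hx with rfl | rfl <;> simp)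
    rcases h3 x (Set.mem_univ _) with h | ⟨t, ht, htx⟩
    · exact (key x h hrx).mono Set.subset_union_left
    · have hrt : G.Reachable r t := hrx.trans htx.symm.reachable
      have h7 := key t ht hrt
      exact (h7.mono Set.subset_union_left).trans
        (Rch.adj htx (Or.inl (h7.mem hrsrc)) hxm)
  exact (key2 i (Or.inl rfl)).symm.trans (key2 j (Or.inr rfl))

end Q37.BinV
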