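import Pool.Agent.Q37.BinV.Koszul
import Pool.Agent.Q37.BinV.Total

/-!
The class of a list of arcs is a cycle; the colon ideal of the product of the sources.
-/

set_option linter.unusedSectionVars false

open MvPolynomial Q14.Bei Q14.Mono

namespace Q37.BinV

variable {V : Type*} [Fintype V] [DecidableEq V] {K : Type*} [Field K] {G : SimpleGraph V}

lemma Cond.adj {L : List (V × V)} {E S : Set V} (h : Cond G L E S) : ∀ a ∈ L, G.Adj a.1 a.2 := by
  induction L generalizing E with
  | nil => simp
  | cons b L ih =>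
    intro a ha
    rcases List.mem_cons.1 ha with rfl | ha
    · exact h.1
    · exact ih h.2.2.2.2 a ha

lemma sum_X_zf (a : V × V) : ∑ t, X t * zf K a t = minor K a.1 a.2 := by
  rw [Fintype.sum_prod_type, Finset.sum_eq_single a.2]
  · rw [Fintype.sum_bool]
    unfold zf minor
    simp
    ring
  · intro b _ hb
    rw [Fintype.sum_bool, zf_zero (by exact hb), zf_zero (by exact hb)]
    simp
  · intro h; exact absurd (Finset.mem_univ _) h

lemma ZZ_cycle {a : V × V} {L : List (V × V)} (h : ∀ b ∈ a :: L, G.Adj b.1 b.2)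
    (v : Fin L.length → V × Bool) :
    dd (k := L.length) X (ZZ K (a :: L)) v ∈ beIdeal K G := by
  have h1 : ∀ t, ZZ K (a :: L) (Fin.cons t v : Fin (L.length + 1) → V × Bool) =
      ∑ i : Fin (L.length + 1), (-1) ^ (i : ℕ) * zf K ((a :: L).get i) t *
        Matrix.det (Matrix.submatrix (Matrix.of fun (c : Fin (L.length + 1)) (b : Fin L.length) =>
          zf K ((a :: L).get c) (v b)) i.succAbove id) := by
    intro t
    unfold ZZ
    exact Matrix.det_succ_column_zero (n := L.length) (Matrix.of fun c b =>
      zf K ((a :: L).get c) ((Fin.cons t v : Fin (L.length + 1) → V × Bool) b))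
  unfold dd
  have h2 : ∑ t, X t * ZZ K (a :: L) (Fin.cons t v : Fin (L.length + 1) → V × Bool) =
      ∑ i : Fin (L.length + 1), ((-1) ^ (i : ℕ) *
        Matrix.det (Matrix.submatrix (Matrix.of fun (c : Fin (L.length + 1)) (b : Fin L.length) =>
          zf K ((a :: L).get c) (v b)) i.succAbove id)) *
        minor K ((a :: L).get i).1 ((a :: L).get i).2 := by
    simp only [h1, Finset.mul_sum]
    rw [Finset.sum_comm]
    refine Finset.sum_congr rfl fun i _ => ?_
    rw [← sum_X_zf, Finset.mul_sum]
    refine Finset.sum_congr rfl fun t _ => ?_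
    ring
  refine h2 ▸ ?_
  exact Ideal.sum_mem _ fun i _ => Ideal.mul_mem_left _ _
    (minor_mem (h _ (List.get_mem (a :: L) i)))

lemma zf_hom (a : V × V) (t : V × Bool) : (zf K a t).IsHomogeneous 1 := by
  unfold zf
  split_ifs
  · exact isHomogeneous_X _ _
  · exact (isHomogeneous_X _ _).neg
  · exact isHomogeneous_zero _ _ _

lemma ZZ_hom (L : List (V × V)) (v : Fin L.length → V × Bool) :
    (ZZ K L v).IsHomogeneous L.length := by
  unfold ZZ
  rw [Matrix.det_apply]
  refine IsHomogeneous.sum _ _ _ fun σ _ => ?_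
  have h1 : (∏ i, (Matrix.of fun a b => zf K (L.get a) (v b)) (σ i) i).IsHomogeneous
      (∑ _i : Fin L.length, 1) := IsHomogeneous.prod _ _ _ fun i _ => zf_hom _ _
  rw [Finset.sum_const, Finset.card_univ, Fintype.card_fin, smul_eq_mul, mul_one] at h1
  rcases Int.units_eq_one_or (Equiv.Perm.sign σ) with h | h
  · rw [h, one_smul]; exact h1
  · rw [h, Units.neg_smul, one_smul]; exact h1.neg

/-- A path with interior vertices in a set. -/
lemma path_list {X' : Set V} {u v : V} (h : Rch G X' u v) : ∃ l : List V, l.Nodup ∧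
    (∀ a ∈ l, a ∈ X' ∧ a ≠ u ∧ a ≠ v) ∧
    (l.map fun a => (X (a, false) : MvPolynomial (V × Bool) K)).prod * minor K u v ∈
      beIdeal K G := by
  let H : SimpleGraph V :=
    { Adj := fun a b => G.Adj a b ∧ a ∈ X' ∧ b ∈ X'
      symm := ⟨fun a b h => ⟨h.1.symm, h.2.2, h.2.1⟩⟩
      loopless := ⟨fun a h => G.loopless.irrefl a h.1⟩ }
  have hr : H.Reachable u v := by
    induction h with
    | refl => exact SimpleGraph.Reachable.refl _
    | tail _ h ih => exact ih.trans (SimpleGraph.Adj.reachable (G := H) h)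
  obtain ⟨p, hp⟩ := hr.exists_isPath
  clear h hr
  have key : ∀ {u v : V} (p : H.Walk u v), p.IsPath → ∃ l : List V, l.Nodup ∧
    (∀ a ∈ l, a ∈ X' ∧ a ≠ u ∧ a ≠ v ∧ a ∈ p.support) ∧
    (l.map fun a => (X (a, false) : MvPolynomial (V × Bool) K)).prod * minor K u v ∈
      beIdeal K G := by
    intro u v p
    induction p with
    | @nil u =>
      intro _
      refine ⟨[], List.nodup_nil, by simp, ?_⟩
      have : minor K u u = 0 := by
        unfold minor; ring
      rw [this, mul_zero]
      exact Ideal.zero_mem _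
    | @cons u a v h p ih =>
      intro hp
      rw [SimpleGraph.Walk.cons_isPath_iff] at hp
      obtain ⟨l, hl1, hl2, hl3⟩ := ih hp.1
      by_cases hav : a = v
      · subst hav
        refine ⟨[], List.nodup_nil, by simp, ?_⟩
        simp only [List.map_nil, List.prod_nil, one_mul]
        exact minor_mem h.1
      · refine ⟨a :: l, ?_, ?_, ?_⟩
        · rw [List.nodup_cons]
          exact ⟨fun h => (hl2 a h).2.1 rfl, hl1⟩
        · intro b hb
          rcases List.mem_cons.1 hb with rfl | hb
          · refine ⟨h.2.2, h.ne', hav, ?_⟩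
            rw [SimpleGraph.Walk.support_cons]
            exact List.mem_cons_of_mem _ (SimpleGraph.Walk.start_mem_support _)
          · obtain ⟨h1, h2, h3, h4⟩ := hl2 b hb
            refine ⟨h1, fun h5 => hp.2 (h5 ▸ h4), h3, ?_⟩
            rw [SimpleGraph.Walk.support_cons]
            exact List.mem_cons_of_mem _ h4
        · rw [List.map_cons, List.prod_cons]
          exact path_step false h.1 hl3
  obtain ⟨l, h1, h2, h3⟩ := key p hp
  exact ⟨l, h1, fun a ha => ⟨(h2 a ha).1, (h2 a ha).2.1, (h2 a ha).2.2.1⟩, h3⟩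

variable (K) in
/-- the product of the sources -/
noncomputable def fL (L : List (V × V)) : MvPolynomial (V × Bool) K :=
  (L.map fun a => (X (a.1, false) : MvPolynomial (V × Bool) K)).prod

lemma fL_hom (L : List (V × V)) : (fL K L).IsHomogeneous L.length := by
  unfold fL
  induction L with
  | nil => exact isHomogeneous_one _ _
  | cons a L ih =>
    rw [List.map_cons, List.prod_cons, List.length_cons, add_comm]
    exact (isHomogeneous_X _ _).mul ih

lemma fL_mul_minor {L : List (V × V)} {u v : V} (h : u ≠ v → Rch G (src L ∪ {u, v}) u v) :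
    fL K L * minor K u v ∈ beIdeal K G := by
  by_cases huv : u = v
  · subst huv
    have : minor K u u = 0 := by unfold minor; ring
    rw [this, mul_zero]
    exact Ideal.zero_mem _
  obtain ⟨l, hl1, hl2, hl3⟩ := path_list (K := K) (h huv)
  have hsub : l ⊆ L.map Prod.fst := by
    intro a ha
    obtain ⟨h1, h2, h3⟩ := hl2 a ha
    rcases h1 with ⟨b, hb, rfl⟩ | h1
    · exact List.mem_map.2 ⟨b, hb, rfl⟩
    · rcases h1 with h1 | h1
      · exact absurd h1 h2
      · exact absurd h1 h3
  have hle : (l : Multiset V) ≤ (L.map Prod.fst : List V) :=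
    Multiset.coe_le.2 (hl1.subperm hsub)
  have hdvd : (l.map fun a => (X (a, false) : MvPolynomial (V × Bool) K)).prod ∣ fL K L := by
    have h1 := Multiset.prod_dvd_prod_of_le (Multiset.map_le_map
      (f := fun a => (X (a, false) : MvPolynomial (V × Bool) K)) hle)
    rw [Multiset.map_coe, Multiset.map_coe, Multiset.prod_coe, Multiset.prod_coe,
      List.map_map] at h1
    exact h1
  obtain ⟨q, hq⟩ := hdvd
  rw [hq, mul_comm (List.prod _) q, mul_assoc]
  exact Ideal.mul_mem_left _ _ hl3

variable (K G) in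
/-- `P_∅` -/
noncomputable def P0 : Ideal (MvPolynomial (V × Bool) K) :=
  Ideal.span {f | ∃ u v, G.Reachable u v ∧ f = minor K u v}

lemma beIdeal_le_P0 : beIdeal K G ≤ P0 K G := by
  unfold beIdeal P0
  refine Ideal.span_mono ?_
  rintro _ ⟨u, v, h, rfl⟩
  exact ⟨u, v, h.reachable, rfl⟩

lemma P0_eq : ∃ P : Ideal (MvPolynomial (V × Bool) K), P = P0 K G ∧ P.IsPrime ∧
    ∀ v b, (X (v, b) : MvPolynomial (V × Bool) K) ∉ P := by
  classical
  refine ⟨PP K ∅ G.connectedComponentMk, ?_, PP_isPrime _ _, fun v b =>
    X_notMem_PP _ _ (Set.notMem_empty _)⟩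
  apply le_antisymm
  · intro f hf
    rw [mem_PP, kill_eq_self (by simp)] at hf
    refine mem_of_ph_eq_zero _ _ (fun _ => True) (fun _ _ _ _ => trivial) ?_ f hf
      (fun _ _ => trivial)
    intro m u v _ _ huv
    refine Ideal.mul_mem_left _ _ (Ideal.subset_span ⟨u, v, ?_, rfl⟩)
    exact SimpleGraph.ConnectedComponent.eq.1 huv
  · unfold P0
    rw [Ideal.span_le]
    rintro _ ⟨u, v, h, rfl⟩
    exact minor_mem_PP_of_eq _ fun _ _ => SimpleGraph.ConnectedComponent.eq.2 h

theorem colon {L : List (V × V)}
    (h : ∀ i j, G.Reachable i j → i ≠ j → Rch G (src L ∪ {i, j}) i j)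
    (g : MvPolynomial (V × Bool) K) : g * fL K L ∈ beIdeal K G ↔ g ∈ P0 K G := by
  constructor
  · intro hg
    have h1 := beIdeal_le_P0 hg
    obtain ⟨P, hP, hPp, hX⟩ := P0_eq (K := K) (G := G)
    rw [← hP] at h1 ⊢
    rcases hPp.mem_or_mem h1 with h2 | h2
    · exact h2
    · exfalso
      unfold fL at h2
      induction L with
      | nil => exact hPp.ne_top ((Ideal.eq_top_iff_one _).2 h2)
      | cons a L ih =>
        rw [List.map_cons, List.prod_cons] at h2
        rcases hPp.mem_or_mem h2 with h3 | h3
        · exact hX _ _ h3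
        · clear ih h hg h1 h2
          induction L with
          | nil => exact hPp.ne_top ((Ideal.eq_top_iff_one _).2 h3)
          | cons b L ih =>
            rw [List.map_cons, List.prod_cons] at h3
            rcases hPp.mem_or_mem h3 with h4 | h4
            · exact hX _ _ h4
            · exact ih h4
  · intro hg
    unfold P0 at hg
    induction hg using Submodule.span_induction with
    | mem f hf =>
      obtain ⟨u, v, huv, rfl⟩ := hf
      rw [mul_comm]
      exact fL_mul_minor fun hne => h u v huv hne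
    | zero => rw [zero_mul]; exact Ideal.zero_mem _
    | add x y _ _ hx hy => rw [add_mul]; exact Ideal.add_mem _ hx hy
    | smul a x _ hx => rw [smul_eq_mul, mul_assoc]; exact Ideal.mul_mem_left _ _ hx

end Q37.BinV
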