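import Mathlib

/-!
Reachability inside a set of vertices; greedy connected dominating sets.
-/

namespace Q37.BinV

variable {V : Type*} (G : SimpleGraph V)

/-- `b` is reachable from `a` by a path all of whose vertices are in `X` (or `a = b`). -/
def Rch (X : Set V) (a b : V) : Prop :=
  Relation.ReflTransGen (fun a b => G.Adj a b ∧ a ∈ X ∧ b ∈ X) a b

variable {G}

lemma Rch.refl {X : Set V} (a : V) : Rch G X a a := Relation.ReflTransGen.refl

lemma Rch.trans {X : Set V} {a b c : V} (h : Rch G X a b) (h' : Rch G X b c) : Rch G X a c :=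
  Relation.ReflTransGen.trans h h'

lemma Rch.symm {X : Set V} {a b : V} (h : Rch G X a b) : Rch G X b a := by
  induction h with
  | refl => exact Rch.refl _
  | tail _ h ih =>
    exact Rch.trans (Relation.ReflTransGen.single ⟨h.1.symm, h.2.2, h.2.1⟩) ih

lemma Rch.mono {X Y : Set V} (hXY : X ⊆ Y) {a b : V} (h : Rch G X a b) : Rch G Y a b := by
  induction h with
  | refl => exact Rch.refl _
  | tail _ h ih => exact Rch.trans ih (Relation.ReflTransGen.single ⟨h.1, hXY h.2.1, hXY h.2.2⟩)

lemma Rch.adj {X : Set V} {a b : V} (h : G.Adj a b) (ha : a ∈ X) (hb : b ∈ X) : Rch G X a b :=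
  Relation.ReflTransGen.single ⟨h, ha, hb⟩

lemma Rch.mem {X : Set V} {a b : V} (h : Rch G X a b) (ha : a ∈ X) : b ∈ X := by
  induction h with
  | refl => exact ha
  | tail _ h _ => exact h.2.2

lemma Rch.reachable {X : Set V} {a b : V} (h : Rch G X a b) : G.Reachable a b := by
  induction h with
  | refl => exact SimpleGraph.Reachable.refl _
  | tail _ h ih => exact ih.trans h.1.reachable

lemma rch_univ {a b : V} (h : G.Reachable a b) : Rch G Set.univ a b := by
  obtain ⟨p⟩ := h
  induction p with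
  | nil => exact Rch.refl _
  | cons h p ih => exact (Rch.adj h (Set.mem_univ _) (Set.mem_univ _)).trans ih

/-- A set closed under neighbours in `X` contains everything reachable. -/
lemma Rch.closed {X A : Set V} {a b : V} (h : Rch G X a b) (ha : a ∈ A)
    (hA : ∀ y ∈ A, ∀ z ∈ X, G.Adj y z → z ∈ A) : b ∈ A := by
  induction h with
  | refl => exact ha
  | tail _ h ih => exact hA _ ih _ h.2.2 h.1

/-- Entering a set. -/
lemma Rch.enter {X A : Set V} {a b : V} (h : Rch G X a b) (ha : a ∉ A) (hb : b ∈ A) :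
    ∃ y z, y ∉ A ∧ z ∈ A ∧ y ∈ X ∧ z ∈ X ∧ G.Adj y z := by
  induction h with
  | refl => exact absurd hb ha
  | @tail y z _ h ih =>
    by_cases hy : y ∈ A
    · exact ih hy
    · exact ⟨y, z, hy, hb, h.2.1, h.2.2, h.1⟩

variable (G)

/-- The class of `v` in `B` with respect to connectivity in `B ∪ E`. -/
def cls (E B : Set V) (v : V) : Set V := {j | j ∈ B ∧ Rch G (B ∪ E) v j}

variable {G}

lemma mem_cls_self {E B : Set V} {v : V} (hv : v ∈ B) : v ∈ cls G E B v := ⟨hv, Rch.refl _⟩

lemma cls_eq_of_mem {E B : Set V} {v j : V} (h : j ∈ cls G E B v) : cls G E B j = cls G E B v := by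
  ext i
  exact ⟨fun hi => ⟨hi.1, h.2.trans hi.2⟩, fun hi => ⟨hi.1, h.2.symm.trans hi.2⟩⟩

lemma cls_eq_of_rch {E B : Set V} {v j : V} (h : Rch G (B ∪ E) v j) :
    cls G E B v = cls G E B j := by
  ext i
  exact ⟨fun hi => ⟨hi.1, h.symm.trans hi.2⟩, fun hi => ⟨hi.1, h.trans hi.2⟩⟩

/-- The supports of a list of arcs. -/
def supp (L : List (V × V)) : Set V := {v | ∃ a ∈ L, v = a.1 ∨ v = a.2}

/-- The sources of a list of arcs. -/
def src (L : List (V × V)) : Set V := {v | ∃ a ∈ L, v = a.1}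

lemma supp_cons (a : V × V) (L : List (V × V)) : supp (a :: L) = {a.1, a.2} ∪ supp L := by
  ext v
  simp [supp]

lemma supp_append (L L' : List (V × V)) : supp (L ++ L') = supp L ∪ supp L' := by
  ext v
  simp only [supp, List.mem_append, Set.mem_ofPred_eq, Set.mem_union]
  constructor
  · rintro ⟨a, h | h, h'⟩
    · exact Or.inl ⟨a, h, h'⟩
    · exact Or.inr ⟨a, h, h'⟩
  · rintro (⟨a, h, h'⟩ | ⟨a, h, h'⟩)
    · exact ⟨a, Or.inl h, h'⟩
    · exact ⟨a, Or.inr h, h'⟩

lemma src_append (L L' : List (V × V)) : src (L ++ L') = src L ∪ src L' := by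
  ext v
  simp only [src, List.mem_append, Set.mem_ofPred_eq, Set.mem_union]
  constructor
  · rintro ⟨a, h | h, h'⟩
    · exact Or.inl ⟨a, h, h'⟩
    · exact Or.inr ⟨a, h, h'⟩
  · rintro (⟨a, h, h'⟩ | ⟨a, h, h'⟩)
    · exact ⟨a, Or.inl h, h'⟩
    · exact ⟨a, Or.inr h, h'⟩

lemma src_cons (a : V × V) (L : List (V × V)) : src (a :: L) = insert a.1 (src L) := by
  ext v
  simp [src]

lemma src_subset_supp (L : List (V × V)) : src L ⊆ supp L := by
  rintro v ⟨a, ha, rfl⟩
  exact ⟨a, ha, Or.inl rfl⟩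

variable (G)

/-- The condition on a list of arcs `(u, w)` (newest first): `w` is a pendant at `u` with respect
to the older arcs, the set `S`, and the always present vertices `E`. -/
def Cond : List (V × V) → Set V → Set V → Prop
  | [], _, _ => True
  | a :: L, E, S => G.Adj a.1 a.2 ∧ a.1 ∉ E ∧ a.2 ∉ S ∪ supp L ∧
      (∀ j ∈ S ∪ supp L, j ≠ a.1 → ¬ Rch G ((S ∪ supp L ∪ E ∪ {a.2}) \ {a.1}) a.2 j) ∧
      Cond L (insert a.1 E) S

variable {G}

lemma Cond.mono_S {L : List (V × V)} {E S S' : Set V} (hS : S ⊆ S') (h : Cond G L E S') :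
    Cond G L E S := by
  induction L generalizing E with
  | nil => trivial
  | cons a L ih =>
    obtain ⟨h1, h2, h3, h4, h5⟩ := h
    have hs : S ∪ supp L ⊆ S' ∪ supp L := Set.union_subset_union_left _ hS
    refine ⟨h1, h2, fun h => h3 (hs h), fun j hj hja hr => h4 j (hs hj) hja (hr.mono ?_), ih h5⟩
    intro x hx
    exact ⟨by
      rcases hx.1 with (hx1 | hx1) | hx1
      · exact Or.inl (Or.inl (hs hx1))
      · exact Or.inl (Or.inr hx1)
      · exact Or.inr hx1, hx.2⟩

lemma Cond.append {L L' : List (V × V)} {E S : Set V} (h : Cond G L E (S ∪ supp L'))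
    (h' : Cond G L' (src L ∪ E) S) : Cond G (L ++ L') E S := by
  induction L generalizing E with
  | nil =>
    have : src ([] : List (V × V)) ∪ E = E := by
      ext; simp [src]
    rw [this] at h'
    exact h'
  | cons a L ih =>
    obtain ⟨h1, h2, h3, h4, h5⟩ := h
    have e : S ∪ supp (L ++ L') = S ∪ supp L' ∪ supp L := by
      rw [supp_append]
      ext; simp only [Set.mem_union]; tauto
    refine ⟨h1, h2, ?_, ?_, ih h5 ?_⟩
    · change a.2 ∉ S ∪ supp (L ++ L')
      rw [e]; exact h3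
    · change ∀ j ∈ S ∪ supp (L ++ L'), j ≠ a.1 →
        ¬ Rch G ((S ∪ supp (L ++ L') ∪ E ∪ {a.2}) \ {a.1}) a.2 j
      rw [e]; exact h4
    · have : src L ∪ insert a.1 E = src (a :: L) ∪ E := by
        rw [src_cons]
        ext; simp only [Set.mem_union, Set.mem_insert_iff]; tauto
      rw [this]
      exact h'

end Q37.BinV
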