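import Pool.Agent.Q37.BinV.Conn

/-!
The greedy construction of a dominating set together with a list of arcs.
-/

namespace Q37.BinV

variable {V : Type*} {G : SimpleGraph V}

lemma supp_nil : supp ([] : List (V × V)) = ∅ := by ext; simp [supp]
lemma src_nil : src ([] : List (V × V)) = ∅ := by ext; simp [src]

theorem greedy [Finite V] : ∀ (n : ℕ) (X R : Set V), (X \ R).ncard = n → R ⊆ X →
    (∀ x ∈ X, ∃ r ∈ R, Rch G X r x) →
    ∃ L : List (V × V), R ∪ supp L ⊆ X ∧ (∀ u ∈ src L, u ∉ R) ∧
      (∀ x ∈ X, x ∈ R ∪ src L ∨ ∃ t ∈ R ∪ src L, G.Adj t x) ∧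
      (∀ t ∈ src L, ∃ r ∈ R, Rch G (R ∪ src L) r t) ∧
      (∀ y ∈ R ∪ supp L, ∃ r ∈ R, Rch G (R ∪ supp L) r y) ∧
      (∀ F : Set V, (∀ j ∈ F, (∃ r ∈ R, G.Adj r j) ∧
        (j ∉ R ∪ supp L → ∀ y ∈ (R ∪ supp L) \ R, ¬ G.Adj y j)) → Cond G L ∅ (R ∪ F)) := by
  intro n
  induction n using Nat.strong_induction_on with
  | _ n ih =>
  intro X R hn hRX hX
  by_cases hXR : X \ R = ∅
  · have hXR' : X ⊆ R := Set.sdiff_eq_empty.1 hXR
    refine ⟨[], ?_, ?_, ?_, ?_, ?_, ?_⟩
    · rw [supp_nil, Set.union_empty]; exact hRX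
    · rw [src_nil]; simp
    · intro x hx; exact Or.inl (Or.inl (hXR' hx))
    · rw [src_nil]; simp
    · rw [supp_nil, Set.union_empty]
      intro y hy
      exact ⟨y, hy, Rch.refl _⟩
    · intro F _; trivial
  · obtain ⟨x, hx, hxR⟩ := Set.nonempty_iff_ne_empty.2 hXR
    obtain ⟨r, hr, hrx⟩ := hX x hx
    obtain ⟨r0, u, hr0, hu, hr0X, huX, hadj⟩ :=
      Rch.enter (A := {v | v ∉ R}) hrx (fun h => h hr) hxR
    replace hr0 : r0 ∈ R := by
      by_contra h; exact hr0 h
    replace hu : u ∉ R := hu
    by_cases hcut : ∀ x ∈ X \ {u}, ∃ r ∈ R, Rch G (X \ {u}) r x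
    · -- delete `u`
      have hRu : R ⊆ X \ {u} := fun y hy => ⟨hRX hy, fun h => hu (h ▸ hy)⟩
      have hlt : ((X \ {u}) \ R).ncard < n := by
        rw [← hn]
        apply Set.ncard_lt_ncard _ (Set.toFinite _)
        refine ⟨fun y hy => ⟨hy.1.1, hy.2⟩, fun h => ?_⟩
        exact (h ⟨huX, hu⟩).1.2 rfl
      obtain ⟨L, h1, h2, h3, h4, h5, h6⟩ := ih _ hlt (X \ {u}) R rfl hRu hcut
      refine ⟨L, h1.trans Set.sdiff_subset, h2, ?_, h4, h5, h6⟩
      intro y hy
      by_cases hyu : y = u
      · subst hyu
        exact Or.inr ⟨r0, Or.inl hr0, hadj⟩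
      · exact h3 y ⟨hy, hyu⟩
    · push Not at hcut
      obtain ⟨a0, ha0, ha0R⟩ := hcut
      set A : Set V := {x | x ∈ X \ {u} ∧ ∀ r ∈ R, ¬ Rch G (X \ {u}) r x} with hA
      have hRXu : ∀ r ∈ R, r ∈ X \ {u} := fun r hr => ⟨hRX hr, fun h => hu (h ▸ hr)⟩
      have hAR : ∀ y ∈ A, y ∉ R := fun y hy hyR => hy.2 y hyR (Rch.refl _)
      have hAclosed : ∀ y ∈ A, ∀ z ∈ X, z ≠ u → G.Adj y z → z ∈ A := by
        intro y hy z hz hzu hyz
        refine ⟨⟨hz, hzu⟩, fun r hr hrz => hy.2 r hr ?_⟩
        exact hrz.trans (Rch.adj hyz.symm ⟨hz, hzu⟩ hy.1)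
      have hAadj : ∀ y ∈ A, ∀ r ∈ R, ¬ G.Adj r y := fun y hy r hr h =>
        hy.2 r hr (Rch.adj h (hRXu r hr) hy.1)
      have huA : u ∉ A := fun h => h.1.2 rfl
      -- apply induction with `u` added to `R`
      have hlt : (X \ insert u R).ncard < n := by
        rw [← hn]
        apply Set.ncard_lt_ncard _ (Set.toFinite _)
        refine ⟨fun y hy => ⟨hy.1, fun h => hy.2 (Or.inr h)⟩, fun h => ?_⟩
        exact (h ⟨huX, hu⟩).2 (Or.inl rfl)
      obtain ⟨L, h1, h2, h3, h4, h5, h6⟩ := ih _ hlt X (insert u R) rfl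
        (Set.insert_subset huX hRX)
        (fun x hx => by
          obtain ⟨r, hr, hrx⟩ := hX x hx
          exact ⟨r, Or.inr hr, hrx⟩)
      have hsuppX : supp L ⊆ X := fun y hy => h1 (Or.inr hy)
      -- choose the child
      obtain ⟨w, hwA, huw, hw⟩ : ∃ w, w ∈ A ∧ G.Adj u w ∧
          (w ∈ insert u R ∪ supp L ∨ ∀ y ∈ insert u R ∪ supp L, y ∉ A) := by
        by_cases hWA : ∃ y0 ∈ insert u R ∪ supp L, y0 ∈ A
        · obtain ⟨y0, hy0, hy0A⟩ := hWA
          obtain ⟨r, hr, hry⟩ := h5 y0 hy0
          have hrA : r ∉ A := by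
            rcases hr with rfl | hr
            · exact huA
            · exact fun h => hAR r h hr
          obtain ⟨y, z, hy, hz, hyW, hzW, hyz⟩ := hry.enter hrA hy0A
          have hyu : y = u := by
            by_contra h
            exact hy (hAclosed z hz y (h1 hyW) h hyz.symm)
          subst hyu
          exact ⟨z, hz, hyz, Or.inl hzW⟩
        · push Not at hWA
          obtain ⟨r, hr, hra⟩ := hX a0 ha0.1
          have ha0A : a0 ∈ A := ⟨ha0, ha0R⟩
          obtain ⟨y, z, hy, hz, hyX, hzX, hyz⟩ := hra.enter (fun h => hAR r h hr) ha0A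
          have hyu : y = u := by
            by_contra h
            exact hy (hAclosed z hz y hyX h hyz.symm)
          subst hyu
          exact ⟨z, hz, hyz, Or.inr hWA⟩
      have hwX : w ∈ X := hwA.1.1
      have hsupp : supp (L ++ [(u, w)]) = supp L ∪ {u, w} := by
        rw [supp_append, supp_cons, supp_nil, Set.union_empty]
      have hsrc : src (L ++ [(u, w)]) = src L ∪ {u} := by
        rw [src_append, src_cons, src_nil]; simp
      have hW : R ∪ supp (L ++ [(u, w)]) = insert w (insert u R ∪ supp L) := by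
        rw [hsupp]; ext; simp only [Set.mem_union, Set.mem_insert_iff, Set.mem_singleton_iff]; tauto
      have hT : R ∪ src (L ++ [(u, w)]) = insert u R ∪ src L := by
        rw [hsrc]; ext; simp only [Set.mem_union, Set.mem_insert_iff, Set.mem_singleton_iff]; tauto
      refine ⟨L ++ [(u, w)], ?_, ?_, ?_, ?_, ?_, ?_⟩
      · rw [hW]; exact Set.insert_subset hwX h1
      · rw [hsrc]
        rintro v (hv | hv)
        · exact fun h => h2 v hv (Or.inr h)
        · rw [Set.mem_singleton_iff] at hv; rw [hv]; exact hu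
      · rw [hT]; exact h3
      · rw [hT, hsrc]
        have hur : Rch G (insert u R ∪ src L) r0 u :=
          Rch.adj hadj (Or.inl (Or.inr hr0)) (Or.inl (Or.inl rfl))
        rintro t (ht | ht)
        · obtain ⟨r, hr, hrt⟩ := h4 t ht
          rcases hr with rfl | hr
          · exact ⟨r0, hr0, hur.trans hrt⟩
          · exact ⟨r, hr, hrt⟩
        · rw [Set.mem_singleton_iff] at ht; subst ht
          exact ⟨r0, hr0, hur⟩
      · rw [hW]
        have hur : Rch G (insert w (insert u R ∪ supp L)) r0 u :=
          Rch.adj hadj (Or.inr (Or.inl (Or.inr hr0))) (Or.inr (Or.inl (Or.inl rfl)))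
        rintro y (hy | hy)
        · subst hy
          exact ⟨r0, hr0, hur.trans (Rch.adj huw (Or.inr (Or.inl (Or.inl rfl))) (Or.inl rfl))⟩
        · obtain ⟨r, hr, hry⟩ := h5 y hy
          have hry' := hry.mono (Set.subset_insert w _)
          rcases hr with rfl | hr
          · exact ⟨r0, hr0, hur.trans hry'⟩
          · exact ⟨r, hr, hry'⟩
      · intro F hF
        rw [hW] at hF
        apply Cond.append
        · -- the newer arcs
          have := h6 (F ∪ {w}) ?_
          · refine this.mono_S ?_
            rw [supp_cons, supp_nil]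
            intro v hv
            simp only [Set.mem_union, Set.mem_insert_iff, Set.mem_singleton_iff,
              Set.mem_empty_iff_false, or_false] at hv ⊢
            tauto
          · have hwenv : w ∉ insert u R ∪ supp L → ∀ y ∈ (insert u R ∪ supp L) \ insert u R,
                ¬ G.Adj y w := by
              intro hwW y hy hyw
              rcases hw with hw | hw
              · exact hwW hw
              · refine hw y hy.1 (hAclosed w hwA y (h1 hy.1) (fun h => hy.2 (Or.inl h)) hyw.symm)
            rintro j (hj | hj)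
            · obtain ⟨⟨r, hr, hrj⟩, hj2⟩ := hF j hj
              refine ⟨⟨r, Or.inr hr, hrj⟩, fun hjW y hy hyj => ?_⟩
              by_cases hjw : j = w
              · subst hjw; exact hwenv hjW y hy hyj
              · refine hj2 ?_ y ⟨Or.inr hy.1, fun h => hy.2 (Or.inr h)⟩ hyj
                rintro (h | h)
                · exact hjw h
                · exact hjW h
            · rw [Set.mem_singleton_iff] at hj; subst hj
              exact ⟨⟨u, Or.inl rfl, huw⟩, hwenv⟩
        · -- the new oldest arc
          have hwF : w ∉ F := fun h => by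
            obtain ⟨⟨r, hr, hrw⟩, -⟩ := hF w h
            exact hAadj w hwA r hr hrw
          refine ⟨huw, ?_, ?_, ?_, trivial⟩
          · show u ∉ src L ∪ ∅
            rw [Set.union_empty]
            exact fun h => h2 u h (Or.inl rfl)
          · show w ∉ R ∪ F ∪ supp []
            rw [supp_nil, Set.union_empty]
            rintro (h | h)
            · exact hAR w hwA h
            · exact hwF h
          · show ∀ j ∈ R ∪ F ∪ supp [], j ≠ u →
              ¬ Rch G ((R ∪ F ∪ supp [] ∪ (src L ∪ ∅) ∪ {w}) \ {u}) w j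
            rw [supp_nil, Set.union_empty, Set.union_empty]
            intro j hj hju hr
            have hjA : j ∈ {y | y ∈ A ∧ (y ∈ src L ∨ y = w)} := by
              refine hr.closed ⟨hwA, Or.inr rfl⟩ ?_
              rintro y ⟨hyA, hy⟩ z ⟨hz, hzu⟩ hyz
              have hyW : y ∈ insert w (insert u R ∪ supp L) \ R := by
                refine ⟨?_, hAR y hyA⟩
                rcases hy with hy | hy
                · exact Or.inr (Or.inr (src_subset_supp L hy))
                · exact Or.inl hy
              rcases hz with ((hz | hz) | hz) | hz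
              · exact absurd hyz.symm (hAadj y hyA z hz)
              · obtain ⟨⟨r, hr, hrz⟩, hz2⟩ := hF z hz
                by_cases hzW : z ∈ insert w (insert u R ∪ supp L)
                · have hzX : z ∈ X := by
                    rcases hzW with h | h
                    · rw [h]; exact hwX
                    · exact h1 h
                  exact absurd hrz (hAadj z (hAclosed y hyA z hzX hzu hyz) r hr)
                · exact absurd hyz (hz2 hzW y hyW)
              · exact ⟨hAclosed y hyA z (hsuppX (src_subset_supp L hz)) hzu hyz, Or.inl hz⟩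
              · rw [Set.mem_singleton_iff] at hz; subst hz
                exact ⟨hwA, Or.inr rfl⟩
            rcases hj with hj | hj
            · exact hAR j hjA.1 hj
            · obtain ⟨⟨r, hr, hrj⟩, -⟩ := hF j hj
              exact hAadj j hjA.1 r hr hrj

end Q37.BinV
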