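import Pool.Agent.Q37.BinV.Sigma

/-!
Koszul chains as alternating functions; the class of a list of arcs does not vanish.
-/

set_option linter.unusedSectionVars false

open MvPolynomial Q14.Bei Q14.Mono

namespace Q37.BinV

/-- Alternating functions of `k` variables with values in an additive group. -/
def IsAlt {ι M : Type*} [AddGroup M] {k : ℕ} (Y : (Fin k → ι) → M) : Prop :=
  (∀ v i j, i ≠ j → v i = v j → Y v = 0) ∧ ∀ v i j, i ≠ j → Y (v ∘ Equiv.swap i j) = - Y v

section General

variable {ι M : Type*} [AddGroup M] {k : ℕ}

lemma cons_comp_swap (x : ι) (v : Fin k → ι) (i j : Fin k) :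
    (Fin.cons x (v ∘ Equiv.swap i j) : Fin (k + 1) → ι) =
      (Fin.cons x v : Fin (k + 1) → ι) ∘ Equiv.swap i.succ j.succ := by
  funext l
  refine Fin.cases ?_ (fun l => ?_) l
  · rw [Function.comp_apply, Equiv.swap_apply_of_ne_of_ne (Fin.succ_ne_zero _).symm
      (Fin.succ_ne_zero _).symm]
    rfl
  · rw [Function.comp_apply, Fin.cons_succ, Function.comp_apply]
    by_cases h1 : l = i
    · subst h1; rw [Equiv.swap_apply_left, Equiv.swap_apply_left, Fin.cons_succ]
    · by_cases h2 : l = j
      · subst h2; rw [Equiv.swap_apply_right, Equiv.swap_apply_right, Fin.cons_succ]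
      · rw [Equiv.swap_apply_of_ne_of_ne h1 h2, Equiv.swap_apply_of_ne_of_ne
          (fun h => h1 (Fin.succ_injective _ h)) (fun h => h2 (Fin.succ_injective _ h)),
          Fin.cons_succ]

lemma IsAlt.cons {Y : (Fin (k + 1) → ι) → M} (h : IsAlt Y) (x : ι) :
    IsAlt (fun v : Fin k → ι => Y (Fin.cons x v)) := by
  constructor
  · intro v i j hij hv
    exact h.1 _ i.succ j.succ (fun h => hij (Fin.succ_injective _ h)) (by simpa using hv)
  · intro v i j hij
    show Y (Fin.cons x (v ∘ Equiv.swap i j)) = _
    rw [cons_comp_swap]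
    exact h.2 _ _ _ (fun h => hij (Fin.succ_injective _ h))

lemma IsAlt.swap01 {Y : (Fin (k + 2) → ι) → M} (h : IsAlt Y) (s t : ι) (v : Fin k → ι) :
    Y (Fin.cons s (Fin.cons t v)) = - Y (Fin.cons t (Fin.cons s v)) := by
  have h1 := h.2 (Fin.cons t (Fin.cons s v)) 0 1 (by simp)
  rw [← h1]
  congr 1
  funext l
  refine Fin.cases ?_ (fun l => ?_) l
  · simp
  · refine Fin.cases ?_ (fun l => ?_) l
    · rw [Function.comp_apply]
      have : (Equiv.swap (0 : Fin (k + 2)) 1) (Fin.succ 0) = 0 := Equiv.swap_apply_right _ _
      rw [this]; rfl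
    · rw [Function.comp_apply, Equiv.swap_apply_of_ne_of_ne (Fin.succ_ne_zero _)]
      · rfl
      · intro h
        exact Fin.succ_ne_zero _ (Fin.succ_injective _ h)

lemma IsAlt.same {Y : (Fin (k + 2) → ι) → M} (h : IsAlt Y) (t : ι) (v : Fin k → ι) :
    Y (Fin.cons t (Fin.cons t v)) = 0 :=
  h.1 _ 0 1 (by simp) (by rfl)

end General

section Diff

variable {ι A : Type*} [Fintype ι] [CommRing A] {k : ℕ}

/-- contraction with the vector `a` -/
def dd (a : ι → A) (Y : (Fin (k + 1) → ι) → A) (v : Fin k → ι) : A := ∑ t, a t * Y (Fin.cons t v)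

lemma IsAlt.dd {a : ι → A} {Y : (Fin (k + 1) → ι) → A} (h : IsAlt Y) : IsAlt (dd a Y) := by
  constructor
  · intro v i j hij hv
    unfold BinV.dd
    refine Finset.sum_eq_zero fun t _ => ?_
    have := (h.cons t).1 v i j hij hv
    simp only at this
    rw [this, mul_zero]
  · intro v i j hij
    unfold BinV.dd
    rw [← Finset.sum_neg_distrib]
    refine Finset.sum_congr rfl fun t _ => ?_
    have := (h.cons t).2 v i j hij
    simp only at this
    rw [this, mul_neg]

lemma dd_dd {a : ι → A} {Y : (Fin (k + 2) → ι) → A} (h : IsAlt Y) (v : Fin k → ι) :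
    dd a (dd a Y) v = 0 := by
  classical
  unfold dd
  simp only [Finset.mul_sum]
  rw [← Finset.sum_product']
  refine Finset.sum_involution (fun p _ => (p.2, p.1)) ?_ ?_ ?_ ?_
  · rintro ⟨s, t⟩ _
    simp only
    rw [h.swap01 t s]
    ring
  · rintro ⟨s, t⟩ _ hne heq
    simp only [Prod.mk.injEq] at heq
    apply hne
    simp only
    rw [heq.1, h.same]
    ring
  · intro p _; simp
  · intro p _; rfl

lemma IsAlt.add {Y Z : (Fin k → ι) → A} (h : IsAlt Y) (h' : IsAlt Z) :
    IsAlt (fun v => Y v + Z v) := by
  constructor
  · intro v i j hij hv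
    simp only
    rw [h.1 v i j hij hv, h'.1 v i j hij hv, add_zero]
  · intro v i j hij
    simp only
    rw [h.2 v i j hij, h'.2 v i j hij]
    ring

lemma IsAlt.map {B : Type*} [AddCommGroup B] {Y : (Fin k → ι) → A} (h : IsAlt Y)
    (f : A →+ B) : IsAlt (fun v => f (Y v)) := by
  constructor
  · intro v i j hij hv
    simp only
    rw [h.1 v i j hij hv, map_zero]
  · intro v i j hij
    simp only
    rw [h.2 v i j hij, map_neg]

end Diff

variable {V : Type*} [Fintype V] [DecidableEq V] {K : Type*} [Field K]

noncomputable local instance : DecidableEq (Set V) := Classical.decEq _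

variable (K) in
/-- The one-form of an arc `(u, w)`: `x_u dy_w - y_u dx_w`. -/
noncomputable def zf (a : V × V) (t : V × Bool) : MvPolynomial (V × Bool) K :=
  if t = (a.2, true) then X (a.1, false) else if t = (a.2, false) then - X (a.1, true) else 0

lemma zf_zero {a : V × V} {t : V × Bool} (h : t.1 ≠ a.2) : zf K a t = 0 := by
  unfold zf
  rw [if_neg, if_neg]
  · rintro rfl; exact h rfl
  · rintro rfl; exact h rfl

variable (K) in
/-- The product of the one-forms of a list of arcs. -/
noncomputable def ZZ (L : List (V × V)) (v : Fin L.length → V × Bool) : MvPolynomial (V × Bool) K :=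
  Matrix.det (Matrix.of fun a b => zf K (L.get a) (v b))

lemma ZZ_isAlt (L : List (V × V)) : IsAlt (ZZ K L) := by
  constructor
  · intro v i j hij hv
    unfold ZZ
    refine Matrix.det_zero_of_column_eq hij fun l => ?_
    simp only [Matrix.of_apply, hv]
  · intro v i j hij
    unfold ZZ
    have := Matrix.det_permute' (Equiv.swap i j) (Matrix.of fun a b => zf K (L.get a) (v b))
    rw [Equiv.Perm.sign_swap hij] at this
    have e : (Matrix.of fun a b => zf K (L.get a) (v b)).submatrix id (Equiv.swap i j) =
        Matrix.of fun a b => zf K (L.get a) ((v ∘ Equiv.swap i j) b) := by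
      ext a b; rfl
    rw [e] at this
    rw [this]
    simp

lemma ZZ_row {a : V × V} {L : List (V × V)} {v : Fin (a :: L).length → V × Bool}
    (h : ∀ b, (v b).1 ≠ a.2) : ZZ K (a :: L) v = 0 := by
  unfold ZZ
  refine Matrix.det_eq_zero_of_row_eq_zero ⟨0, by simp⟩ fun b => ?_
  simp only [Matrix.of_apply]
  exact zf_zero (h b)

lemma ZZ_col {L : List (V × V)} {w : V} (hw : ∀ a ∈ L, a.2 ≠ w) {v : Fin L.length → V × Bool}
    (b : Fin L.length) (hb : (v b).1 = w) : ZZ K L v = 0 := by
  unfold ZZ
  refine Matrix.det_eq_zero_of_column_eq_zero b fun a => ?_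
  simp only [Matrix.of_apply]
  refine zf_zero ?_
  rw [hb]
  exact (hw _ (List.get_mem L a)).symm

lemma ZZ_cons {c w : V} {L : List (V × V)} (hw : ∀ a ∈ L, a.2 ≠ w) (v : Fin L.length → V × Bool) :
    ZZ K ((c, w) :: L) (Fin.cons (w, false) v : Fin (L.length + 1) → V × Bool) =
      - X (c, true) * ZZ K L v := by
  unfold ZZ
  have h := Matrix.det_succ_column_zero (n := L.length) (Matrix.of fun a b =>
    zf K (((c, w) :: L).get a) ((Fin.cons (w, false) v : Fin (L.length + 1) → V × Bool) b))
  refine h.trans ?_
  rw [Finset.sum_eq_single 0]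
  · have h1 : zf K (c, w) (w, false) = - X (c, true) := by
      unfold zf
      rw [if_neg (by simp), if_pos rfl]
    simp only [Fin.val_zero, pow_zero, one_mul, Matrix.of_apply, Fin.cons_zero]
    congr 1
  · intro i _ hi
    obtain ⟨i', rfl⟩ := Fin.exists_succ_eq.2 hi
    have : zf K (L.get i') (w, false) = 0 := zf_zero (hw _ (List.get_mem L i')).symm
    refine mul_eq_zero_of_left ?_ _
    refine mul_eq_zero_of_right _ ?_
    exact this
  · intro h; exact absurd (Finset.mem_univ _) h

variable {G : SimpleGraph V}

/-- The class of a list of arcs satisfying the condition does not vanish. -/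
theorem nonvanish (L : List (V × V)) : ∀ (E : Set V), Cond G L E ∅ →
    ∀ Y : (Fin (L.length + 1) → V × Bool) → MvPolynomial (V × Bool) K, IsAlt Y →
      (∀ v, ZZ K L v - dd X Y v ∈ QI K G (supp L) E) → False := by
  classical
  induction L with
  | nil =>
    intro E _ Y _ h
    have h1 := mem_QI.1 (h Fin.elim0) ∅ (Set.empty_subset _)
    have h2 : Phi K G E ∅ (dd X Y Fin.elim0) = 0 := by
      unfold dd
      rw [map_sum]
      refine Finset.sum_eq_zero fun t _ => ?_
      rw [map_mul]
      have : Phi K G E ∅ (X t) = 0 := Phi_notMem (v := t.1) t.2 (Set.notMem_empty _)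
      rw [this, zero_mul]
    have h3 : ZZ K ([] : List (V × V)) Fin.elim0 = 1 := by
      unfold ZZ
      haveI : IsEmpty (Fin ([] : List (V × V)).length) := inferInstanceAs (IsEmpty (Fin 0))
      exact Matrix.det_isEmpty
    rw [map_sub, h2, h3, map_one, sub_zero] at h1
    exact one_ne_zero h1
  | cons a L ih =>
    obtain ⟨c, w⟩ := a
    intro E hC Y hY h
    obtain ⟨hadj, hcE, hwS, hP, hC'⟩ := hC
    simp only [Set.empty_union] at hadj hcE hwS hP hC'
    have hne : c ≠ w := hadj.ne
    have hwL : ∀ a ∈ L, a.2 ≠ w := fun a ha h => hwS ⟨a, ha, Or.inr h.symm⟩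
    set U' : Set V := insert c (supp L) with hU'
    have hwU' : w ∉ U' := by
      rintro (h | h)
      · exact hne h.symm
      · exact hwS h
    have hsupp : supp ((c, w) :: L) = insert w U' := by
      rw [supp_cons, hU']
      ext; simp only [Set.mem_union, Set.mem_insert_iff, Set.mem_singleton_iff]; tauto
    -- first order parts
    let πX : V × Bool → MvPolynomial (V × Bool) K := fun t => kl K {w} (X t)
    let Dx : MvPolynomial (V × Bool) K → MvPolynomial (V × Bool) K :=
      fun p => kl K {w} (pderiv (w, false) p)
    let Dy : MvPolynomial (V × Bool) K → MvPolynomial (V × Bool) K :=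
      fun p => kl K {w} (pderiv (w, true) p)
    have hDx : ∀ v : Fin (L.length + 1) → V × Bool, Dx (dd X Y v) =
        kl K {w} (Y (Fin.cons (w, false) v)) + dd πX (fun v => Dx (Y v)) v := by
      intro v
      simp only [Dx, dd, map_sum, Derivation.leibniz, smul_eq_mul, map_add, map_mul]
      rw [Finset.sum_add_distrib, add_comm]
      congr 1
      rw [Finset.sum_eq_single (w, false)]
      · rw [pderiv_X_self, map_one, mul_one]
      · intro t _ ht
        rw [pderiv_X_of_ne ht, map_zero, mul_zero]
      · intro h; exact absurd (Finset.mem_univ _) h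
    have hDy : ∀ v : Fin (L.length + 1) → V × Bool, Dy (dd X Y v) =
        kl K {w} (Y (Fin.cons (w, true) v)) + dd πX (fun v => Dy (Y v)) v := by
      intro v
      simp only [Dy, dd, map_sum, Derivation.leibniz, smul_eq_mul, map_add, map_mul]
      rw [Finset.sum_add_distrib, add_comm]
      congr 1
      rw [Finset.sum_eq_single (w, true)]
      · rw [pderiv_X_self, map_one, mul_one]
      · intro t _ ht
        rw [pderiv_X_of_ne ht, map_zero, mul_zero]
      · intro h; exact absurd (Finset.mem_univ _) h
    set α : (Fin (L.length + 1) → V × Bool) → MvPolynomial (V × Bool) K := fun v =>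
      kl K {w} (Y (Fin.cons (w, false) v)) + dd πX (fun v => Dx (Y v)) v with hα
    set β : (Fin (L.length + 1) → V × Bool) → MvPolynomial (V × Bool) K := fun v =>
      kl K {w} (Y (Fin.cons (w, true) v)) + dd πX (fun v => Dy (Y v)) v with hβ
    -- the relations
    have hrel : ∀ v : Fin (L.length + 1) → V × Bool, (∀ b, (v b).1 ≠ w) → ∀ B ⊆ U',
        (c ∈ B → Phi K G E B (α v) * X (Sum.inl (cls G E B c)) + Phi K G E B (β v) = 0) ∧
        (c ∉ B → Phi K G E B (α v) = 0 ∧ Phi K G E B (β v) = 0) := by
      intro v hv B hB
      refine starstar hadj hcE hwS hP hB ?_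
      have hB' : insert w B ⊆ supp ((c, w) :: L) := by
        rw [hsupp]; exact Set.insert_subset_insert hB
      have h1 := mem_QI.1 (h v) (insert w B) hB'
      have hz : ZZ K ((c, w) :: L) v = 0 := ZZ_row hv
      rw [hz, zero_sub, map_neg, neg_eq_zero] at h1
      have h2 := Phi_first (Set.mem_insert w B) h1
      have h3 : kl K {w} (kl K {w} (pderiv (w, false) (dd X Y v))) =
          kl K {w} (pderiv (w, false) (dd X Y v)) := by
        have : (kl K {w}).comp (kl K {w}) = kl K ({w} : Set V) := by
          apply MvPolynomial.algHom_ext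
          rintro ⟨u, b⟩
          rw [AlgHom.comp_apply]
          by_cases hu : u = w
          · subst hu; rw [kl_X_mem _ (Set.mem_singleton u), map_zero]
          · rw [kl_single _ hu, kl_single _ hu]
        exact DFunLike.congr_fun this _
      have h4 : kl K {w} (kl K {w} (pderiv (w, true) (dd X Y v))) =
          kl K {w} (pderiv (w, true) (dd X Y v)) := by
        have : (kl K {w}).comp (kl K {w}) = kl K ({w} : Set V) := by
          apply MvPolynomial.algHom_ext
          rintro ⟨u, b⟩
          rw [AlgHom.comp_apply]
          by_cases hu : u = w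
          · subst hu; rw [kl_X_mem _ (Set.mem_singleton u), map_zero]
          · rw [kl_single _ hu, kl_single _ hu]
        exact DFunLike.congr_fun this _
      rw [← h3, ← h4] at h2
      have h5 := hDx v
      have h6 := hDy v
      simp only [Dx, Dy] at h5 h6
      rw [h5, h6] at h2
      exact h2
    -- the quotient chain
    set δ : (Fin (L.length + 1) → V × Bool) → MvPolynomial (V × Bool) K := fun v =>
      sgm K G E c (β v) with hδ
    have hαδ : ∀ v : Fin (L.length + 1) → V × Bool, (∀ b, (v b).1 ≠ w) → ∀ B ⊆ U',
        Phi K G E B (α v + X (c, true) * δ v) = 0 := by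
      intro v hv
      exact sgm_spec' (fun B hB hc => (hrel v hv B hB).1 hc) (fun B hB hc => (hrel v hv B hB).2 hc)
    have hβalt : IsAlt β := by
      refine IsAlt.add ?_ ?_
      · exact (hY.cons (w, true)).map (kl K {w}).toRingHom.toAddMonoidHom
      · refine IsAlt.dd ?_
        exact hY.map ((kl K {w}).toRingHom.toAddMonoidHom.comp
          (pderiv (R := K) (w, true)).toLinearMap.toAddMonoidHom)
    have hδalt : IsAlt δ := hβalt.map (sgm K G E c).toAddMonoidHom
    have hPalt : IsAlt (fun v => Dx (Y v)) :=
      hY.map ((kl K {w}).toRingHom.toAddMonoidHom.comp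
          (pderiv (R := K) (w, false)).toLinearMap.toAddMonoidHom)
    have hπPhi : ∀ B ⊆ U', ∀ p, Phi K G E B (kl K {w} p) = Phi K G E B p := by
      intro B hB p
      have hwB : w ∉ B := fun h => hwU' (hB h)
      have : (Phi K G E B).comp (kl K {w}) = Phi K G E B := by
        apply MvPolynomial.algHom_ext
        rintro ⟨u, b⟩
        rw [AlgHom.comp_apply]
        by_cases hu : u = w
        · subst hu; rw [kl_X_mem _ (Set.mem_singleton u), map_zero, Phi_notMem _ hwB]
        · rw [kl_single _ hu]
      exact DFunLike.congr_fun this p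
    -- main computation
    have hmain : ∀ v : Fin L.length → V × Bool, (∀ b, (v b).1 ≠ w) → ∀ B ⊆ U',
        Phi K G E B (X (c, true) * (ZZ K L v + dd πX δ v)) = 0 := by
      intro v hv B hB
      have hwB : w ∉ B := fun h => hwU' (hB h)
      have hBs : B ⊆ supp ((c, w) :: L) := by
        rw [hsupp]; exact hB.trans (Set.subset_insert _ _)
      have h1 := mem_QI.1 (h (Fin.cons (w, false) v : Fin (L.length + 1) → V × Bool)) B hBs
      rw [ZZ_cons hwL] at h1
      -- `Phi (dd πX A v)` where `A v = kl (Y (cons (w, false) v))`
      have h2 : Phi K G E B (dd X Y (Fin.cons (w, false) v : Fin (L.length + 1) → V × Bool)) =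
          - Phi K G E B (dd πX (fun v => kl K {w} (Y (Fin.cons (w, false) v))) v) := by
        unfold dd
        rw [map_sum, map_sum, ← Finset.sum_neg_distrib]
        refine Finset.sum_congr rfl fun t _ => ?_
        rw [map_mul, map_mul, hπPhi B hB, hπPhi B hB, hY.swap01]
        rw [map_neg, mul_neg]
      have h3 : dd πX α v = dd πX (fun v => kl K {w} (Y (Fin.cons (w, false) v))) v := by
        have h4 := dd_dd (a := πX) hPalt v
        have h5 : dd πX α v = dd πX (fun v => kl K {w} (Y (Fin.cons (w, false) v))) v +
            dd πX (dd πX (fun v => Dx (Y v))) v := by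
          unfold dd
          rw [← Finset.sum_add_distrib]
          refine Finset.sum_congr rfl fun t _ => ?_
          rw [← mul_add]
          rfl
        exact h5.trans ((congrArg _ h4).trans (add_zero _))
      have h6 : Phi K G E B (dd πX α v) = - Phi K G E B (X (c, true) * dd πX δ v) := by
        unfold dd
        rw [map_sum, Finset.mul_sum, map_sum, ← Finset.sum_neg_distrib]
        refine Finset.sum_congr rfl fun t _ => ?_
        by_cases ht : t.1 = w
        · have : πX t = 0 := kl_X_mem (v := t.1) t.2 (by rw [ht]; exact Set.mem_singleton w)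
          rw [this]; simp
        · have h7 := hαδ (Fin.cons t v) (by
            intro b
            refine Fin.cases ?_ (fun b => ?_) b
            · exact ht
            · exact hv b) B hB
          rw [map_add] at h7
          rw [map_mul, eq_neg_of_add_eq_zero_left h7, mul_neg, ← map_mul]
          congr 2
          ring
      rw [mul_add, map_add]
      have h8 : Phi K G E B (-X (c, true) * ZZ K L v) = - Phi K G E B (X (c, true) * ZZ K L v) := by
        rw [neg_mul, map_neg]
      rw [map_sub, h8] at h1
      have h1' : - Phi K G E B (X (c, true) * ZZ K L v) - Phi K G E B (dd (k := L.length + 1) X Y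
        (Fin.cons (w, false) v : Fin (L.length + 1) → V × Bool)) = 0 := h1
      have h9 : Phi K G E B (dd X Y (Fin.cons (w, false) v : Fin (L.length + 1) → V × Bool)) =
          Phi K G E B (X (c, true) * dd πX δ v) := by
        rw [h2, ← h3, h6, neg_neg]
      rw [h9] at h1'
      linear_combination -h1'
    -- conclusion
    set Y' : (Fin (L.length + 1) → V × Bool) → MvPolynomial (V × Bool) K := fun v =>
      if ∀ b, (v b).1 ≠ w then - δ v else 0 with hY'
    have hY'alt : IsAlt Y' := by
      constructor
      · intro v i j hij hvij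
        simp only [hY']
        split_ifs
        · rw [hδalt.1 v i j hij hvij, neg_zero]
        · rfl
      · intro v i j hij
        simp only [hY']
        have hiff : (∀ b, ((v ∘ Equiv.swap i j) b).1 ≠ w) ↔ ∀ b, (v b).1 ≠ w := by
          constructor
          · intro h b
            have := h (Equiv.swap i j b)
            rwa [Function.comp_apply, Equiv.swap_apply_self] at this
          · intro h b; exact h _
        by_cases hv : ∀ b, (v b).1 ≠ w
        · rw [if_pos (hiff.2 hv), if_pos hv, hδalt.2 v i j hij]
        · rw [if_neg (fun h => hv (hiff.1 h)), if_neg hv, neg_zero]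
    refine ih (insert c E) hC' Y' hY'alt fun v => ?_
    by_cases hv : ∀ b, (v b).1 ≠ w
    · have h1 : dd X Y' v = - dd πX δ v := by
        unfold dd
        rw [← Finset.sum_neg_distrib]
        refine Finset.sum_congr rfl fun t _ => ?_
        by_cases ht : t.1 = w
        · have h2 : πX t = 0 := kl_X_mem (v := t.1) t.2 (by rw [ht]; exact Set.mem_singleton w)
          have h3 : Y' (Fin.cons t v) = 0 := by
            simp only [hY']
            rw [if_neg]
            intro h
            exact h 0 ht
          rw [h2, h3]; simp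
        · have h2 : πX t = X t := kl_single (v := t.1) t.2 ht
          have h3 : Y' (Fin.cons t v) = - δ (Fin.cons t v) := by
            simp only [hY']
            rw [if_pos]
            intro b
            refine Fin.cases ?_ (fun b => ?_) b
            · exact ht
            · exact hv b
          rw [h2, h3, mul_neg]
      rw [h1, sub_neg_eq_add, mem_QI]
      intro B hB
      -- use `B ∪ {c}`
      have hBU : insert c B ⊆ U' := Set.insert_subset_insert hB
      have h2 := hmain v hv _ hBU
      rw [map_mul, Phi_true (Set.mem_insert c B)] at h2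
      have h3 : Phi K G E (insert c B) (ZZ K L v + dd πX δ v) = 0 := by
        rcases mul_eq_zero.1 h2 with h | h
        · exact absurd h (X_ne_zero _)
        · exact h
      refine Phi_restrict (Set.subset_insert c B) ?_ h3
      ext x; simp only [Set.mem_union, Set.mem_insert_iff]; tauto
    · push Not at hv
      obtain ⟨b, hb⟩ := hv
      rw [ZZ_col hwL b hb]
      have h1 : dd X Y' v = 0 := by
        unfold dd
        refine Finset.sum_eq_zero fun t _ => ?_
        have h3 : Y' (Fin.cons t v) = 0 := by
          simp only [hY']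
          rw [if_neg]
          intro h
          exact h b.succ hb
        rw [h3, mul_zero]
      rw [h1, sub_zero]
      exact Ideal.zero_mem _

end Q37.BinV
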