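import Pool.Agent.Q14.Bei
import Pool.Agent.Q37.BinV.Conn

/-!
The rings attached to a graph, a set of active vertices and a set of always present vertices.
-/

set_option linter.unusedSectionVars false
set_option linter.unusedSimpArgs false

open MvPolynomial Q14.Bei Q14.Mono

namespace Q37.BinV

variable {V : Type*} [Fintype V] [DecidableEq V] {K : Type*} [Field K]

noncomputable local instance : DecidableEq (Set V) := Classical.decEq _

/-- setting the variables at the vertices of `T` to zero -/
noncomputable def kl (K : Type*) [Field K] (T : Set V) :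
    MvPolynomial (V × Bool) K →ₐ[K] MvPolynomial (V × Bool) K :=
  kill K {p : V × Bool | p.1 ∈ T}

lemma kl_X_mem {T : Set V} {v : V} (b : Bool) (hv : v ∈ T) : kl K T (X (v, b)) = 0 := by
  unfold kl kill
  rw [aeval_X, if_pos (show (v, b) ∈ {p : V × Bool | p.1 ∈ T} from hv)]

lemma kl_X_notMem {T : Set V} {v : V} (b : Bool) (hv : v ∉ T) : kl K T (X (v, b)) = X (v, b) := by
  unfold kl kill
  rw [aeval_X, if_neg (show (v, b) ∉ {p : V × Bool | p.1 ∈ T} from hv)]

lemma kl_compl {B : Set V} {v : V} (b : Bool) (hv : v ∈ B) : kl K Bᶜ (X (v, b)) = X (v, b) :=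
  kl_X_notMem b (fun h => h hv)

lemma kl_single {w : V} {v : V} (b : Bool) (hv : v ≠ w) : kl K {w} (X (v, b)) = X (v, b) :=
  kl_X_notMem b (fun h => hv h)

variable (K) in
/-- The map `x_v ↦ s_C u_v`, `y_v ↦ u_v`, where `C` is the class of `v` in `B`, for `v ∈ B`;
the variables at other vertices go to zero. -/
noncomputable def Phi (G : SimpleGraph V) (E B : Set V) :
    MvPolynomial (V × Bool) K →ₐ[K] MvPolynomial (Set V ⊕ V) K :=
  (ph K (cls G E B)).comp (kl K Bᶜ)

variable {G : SimpleGraph V} {E B : Set V}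

lemma Phi_false {v : V} (hv : v ∈ B) : Phi K G E B (X (v, false)) =
    X (Sum.inl (cls G E B v)) * X (Sum.inr v) := by
  unfold Phi
  rw [AlgHom.comp_apply, kl_compl _ hv]
  unfold ph
  rw [aeval_X]
  unfold wt
  simp [X, monomial_mul]

lemma Phi_true {v : V} (hv : v ∈ B) : Phi K G E B (X (v, true)) = X (Sum.inr v) := by
  unfold Phi
  rw [AlgHom.comp_apply, kl_compl _ hv]
  unfold ph
  rw [aeval_X]
  unfold wt
  simp [X]

lemma Phi_notMem {v : V} (b : Bool) (hv : v ∉ B) : Phi K G E B (X (v, b)) = 0 := by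
  unfold Phi
  rw [AlgHom.comp_apply, kl_X_mem _ hv, map_zero]

lemma algHom_ext_vb {A : Type*} [CommSemiring A] [Algebra K A]
    {f g : MvPolynomial (V × Bool) K →ₐ[K] A}
    (h0 : ∀ v, f (X (v, false)) = g (X (v, false)))
    (h1 : ∀ v, f (X (v, true)) = g (X (v, true))) : f = g := by
  apply MvPolynomial.algHom_ext
  rintro ⟨v, b⟩
  cases b
  · exact h0 v
  · exact h1 v

variable (K G) in
/-- The ideal of elements killed by all `Phi`, `B ⊆ U`. -/
noncomputable def QI (U E : Set V) : Ideal (MvPolynomial (V × Bool) K) :=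
  ⨅ B : {B : Set V // B ⊆ U}, RingHom.ker (Phi K G E B.1)

lemma mem_QI {U : Set V} {f : MvPolynomial (V × Bool) K} :
    f ∈ QI K G U E ↔ ∀ B ⊆ U, Phi K G E B f = 0 := by
  unfold QI
  rw [Submodule.mem_iInf]
  constructor
  · intro h B hB
    exact h ⟨B, hB⟩
  · rintro h ⟨B, hB⟩
    exact h B hB

lemma Phi_minor {u v : V} (h : u ∈ B → v ∈ B → cls G E B u = cls G E B v) :
    Phi K G E B (minor K u v) = 0 := by
  unfold minor
  rw [map_sub, map_mul, map_mul]
  by_cases hu : u ∈ B
  · by_cases hv : v ∈ B
    · rw [Phi_false hu, Phi_false hv, Phi_true hu, Phi_true hv, h hu hv]; ring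
    · rw [Phi_notMem _ hv, Phi_notMem _ hv]; ring
  · rw [Phi_notMem _ hu, Phi_notMem _ hu]; ring

lemma beIdeal_le_QI (U : Set V) : beIdeal K G ≤ QI K G U ∅ := by
  unfold beIdeal
  rw [Ideal.span_le]
  rintro _ ⟨u, v, huv, rfl⟩
  rw [SetLike.mem_coe, mem_QI]
  intro B _
  refine Phi_minor fun hu hv => cls_eq_of_rch (Rch.adj huv (Or.inl hu) (Or.inl hv))

/-- A hom restricting labels to `B'`. -/
noncomputable def kap (K : Type*) [Field K] (B' : Set V) :
    MvPolynomial (Set V ⊕ V) K →ₐ[K] MvPolynomial (Set V ⊕ V) K := by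
  classical
  exact aeval (Sum.elim (fun C => X (Sum.inl (C ∩ B')))
    (fun v => if v ∈ B' then X (Sum.inr v) else 0))

lemma kap_inl (B' C : Set V) : kap K B' (X (Sum.inl C)) = X (Sum.inl (C ∩ B')) := by
  unfold kap; rw [aeval_X]; rfl

lemma kap_inr_mem {B' : Set V} {v : V} (hv : v ∈ B') :
    kap K B' (X (Sum.inr v)) = X (Sum.inr v) := by
  unfold kap; rw [aeval_X, Sum.elim_inr, if_pos hv]

lemma kap_inr_notMem {B' : Set V} {v : V} (hv : v ∉ B') :
    kap K B' (X (Sum.inr v)) = 0 := by
  unfold kap; rw [aeval_X, Sum.elim_inr, if_neg hv]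

/-- Restriction to a smaller `B` with the same total set. -/
lemma Phi_restrict {B' E' : Set V} (hB : B' ⊆ B) (hX : B' ∪ E' = B ∪ E)
    {g : MvPolynomial (V × Bool) K} (h : Phi K G E B g = 0) : Phi K G E' B' g = 0 := by
  have hcomp : (kap K B').comp (Phi K G E B) = Phi K G E' B' := by
    have hc : ∀ v, cls G E B v ∩ B' = cls G E' B' v := by
      intro v
      ext j
      constructor
      · rintro ⟨⟨_, h2⟩, h3⟩; exact ⟨h3, by rw [hX]; exact h2⟩
      · rintro ⟨h1, h2⟩; exact ⟨⟨hB h1, by rw [← hX]; exact h2⟩, h1⟩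
    apply algHom_ext_vb
    · intro v
      rw [AlgHom.comp_apply]
      by_cases hv : v ∈ B
      · rw [Phi_false hv, map_mul, kap_inl, hc]
        by_cases hv' : v ∈ B'
        · rw [kap_inr_mem hv', Phi_false hv']
        · rw [kap_inr_notMem hv', mul_zero, Phi_notMem _ hv']
      · rw [Phi_notMem _ hv, map_zero, Phi_notMem _ (fun h => hv (hB h))]
    · intro v
      rw [AlgHom.comp_apply]
      by_cases hv : v ∈ B
      · rw [Phi_true hv]
        by_cases hv' : v ∈ B'
        · rw [kap_inr_mem hv', Phi_true hv']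
        · rw [kap_inr_notMem hv', Phi_notMem _ hv']
      · rw [Phi_notMem _ hv, map_zero, Phi_notMem _ (fun h => hv (hB h))]
  rw [← hcomp, AlgHom.comp_apply, h, map_zero]

/-- Extension to a larger `B`. -/
lemma Phi_extend {B2 : Set V} (hB : B ⊆ B2) {g : MvPolynomial (V × Bool) K}
    (h : Phi K G E B g = 0) : Phi K G E B2 (kl K Bᶜ g) = 0 := by
  let μ : MvPolynomial (Set V ⊕ V) K →ₐ[K] MvPolynomial (Set V ⊕ V) K :=
    aeval (Sum.elim (fun C => X (Sum.inl {j | ∃ i ∈ C, j ∈ cls G E B2 i}))
      (fun v => X (Sum.inr v)))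
  have hcomp : μ.comp (Phi K G E B) = (Phi K G E B2).comp (kl K Bᶜ) := by
    have hc : ∀ v ∈ B, {j | ∃ i ∈ cls G E B v, j ∈ cls G E B2 i} = cls G E B2 v := by
      intro v hv
      ext j
      constructor
      · rintro ⟨i, hi, hj⟩
        exact ⟨hj.1, (hi.2.mono (Set.union_subset_union_left _ hB)).trans hj.2⟩
      · intro hj
        exact ⟨v, mem_cls_self hv, hj⟩
    apply algHom_ext_vb
    · intro v
      rw [AlgHom.comp_apply, AlgHom.comp_apply]
      by_cases hv : v ∈ B
      · rw [Phi_false hv, kl_compl _ hv, Phi_false (hB hv), map_mul]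
        simp only [μ, aeval_X, Sum.elim_inl, Sum.elim_inr]
        rw [hc v hv]
      · rw [Phi_notMem _ hv, kl_X_mem _ hv, map_zero, map_zero]
    · intro v
      rw [AlgHom.comp_apply, AlgHom.comp_apply]
      by_cases hv : v ∈ B
      · rw [Phi_true hv, kl_compl _ hv, Phi_true (hB hv)]
        simp only [μ, aeval_X, Sum.elim_inr]
      · rw [Phi_notMem _ hv, kl_X_mem _ hv, map_zero, map_zero]
  rw [← AlgHom.comp_apply, ← hcomp, AlgHom.comp_apply, h, map_zero]

/-- The Leibniz rule. -/
lemma pderiv_Phi {w : V} (hw : w ∈ B) (h : MvPolynomial (V × Bool) K) :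
    pderiv (Sum.inr w) (Phi K G E B h) =
      Phi K G E B (pderiv (w, false) h) * X (Sum.inl (cls G E B w)) +
        Phi K G E B (pderiv (w, true) h) := by
  induction h using MvPolynomial.induction_on with
  | C a => simp [Phi, kl, kill]
  | add p q hp hq => simp only [map_add, hp, hq]; ring
  | mul_X p i hp =>
    rw [map_mul, Derivation.leibniz, Derivation.leibniz, Derivation.leibniz, hp]
    simp only [smul_eq_mul, map_add, map_mul]
    obtain ⟨v, b⟩ := i
    have key : pderiv (Sum.inr w) (Phi K G E B (X (v, b))) =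
        Phi K G E B (pderiv (w, false) (X (v, b))) * X (Sum.inl (cls G E B w)) +
        Phi K G E B (pderiv (w, true) (X (v, b))) := by
      by_cases hv : v ∈ B
      · cases b
        · rw [Phi_false hv, Derivation.leibniz, pderiv_X, pderiv_X, pderiv_X, pderiv_X]
          by_cases hvw : v = w
          · subst hvw
            simp [Pi.single_apply]
          · have hwv : ¬ w = v := fun h => hvw h.symm
            simp [Pi.single_apply, hvw, hwv]
        · rw [Phi_true hv, pderiv_X, pderiv_X, pderiv_X]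
          by_cases hvw : v = w
          · subst hvw
            simp [Pi.single_apply]
          · have hwv : ¬ w = v := fun h => hvw h.symm
            simp [Pi.single_apply, hvw, hwv]
      · have hvw : v ≠ w := fun h => hv (h ▸ hw)
        have hwv : ¬ w = v := fun h => hvw h.symm
        rw [Phi_notMem _ hv, map_zero, pderiv_X, pderiv_X]
        simp [Pi.single_apply, hvw, hwv]
    rw [key]
    ring

/-- The first order part. -/
lemma Phi_first {w : V} (hw : w ∈ B) {h : MvPolynomial (V × Bool) K} (h0 : Phi K G E B h = 0) :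
    Phi K G E B (kl K {w} (pderiv (w, false) h)) * X (Sum.inl (cls G E B w)) +
      Phi K G E B (kl K {w} (pderiv (w, true) h)) = 0 := by
  classical
  let ev : MvPolynomial (Set V ⊕ V) K →ₐ[K] MvPolynomial (Set V ⊕ V) K :=
    aeval (Sum.elim (fun C => X (Sum.inl C)) (fun v => if v = w then 0 else X (Sum.inr v)))
  have hcomp : ev.comp (Phi K G E B) = (Phi K G E B).comp (kl K {w}) := by
    apply algHom_ext_vb
    · intro v
      rw [AlgHom.comp_apply, AlgHom.comp_apply]
      by_cases hvw : v = w
      · subst hvw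
        rw [kl_X_mem _ (Set.mem_singleton v), map_zero, Phi_false hw]
        simp [ev]
      · rw [kl_single _ hvw]
        by_cases hv : v ∈ B
        · rw [Phi_false hv]; simp [ev, hvw]
        · rw [Phi_notMem _ hv, map_zero]
    · intro v
      rw [AlgHom.comp_apply, AlgHom.comp_apply]
      by_cases hvw : v = w
      · subst hvw
        rw [kl_X_mem _ (Set.mem_singleton v), map_zero, Phi_true hw]
        simp [ev]
      · rw [kl_single _ hvw]
        by_cases hv : v ∈ B
        · rw [Phi_true hv]; simp [ev, hvw]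
        · rw [Phi_notMem _ hv, map_zero]
  have h1 := pderiv_Phi (K := K) (G := G) (E := E) hw h
  rw [h0, map_zero] at h1
  have h2 := congrArg ev h1
  rw [map_zero, map_add, map_mul] at h2
  have h3 : ∀ g, ev (Phi K G E B g) = Phi K G E B (kl K {w} g) := fun g => by
    rw [← AlgHom.comp_apply, hcomp, AlgHom.comp_apply]
  rw [h3, h3] at h2
  have h4 : ev (X (Sum.inl (cls G E B w))) = X (Sum.inl (cls G E B w)) := by simp [ev]
  rw [h4] at h2
  exact h2.symm

/-! ### Pendants -/

section Pendant

variable {c w : V} {S : Set V}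

/-- connectivity among the old vertices is not changed by `w` -/
lemma rch_old (hcw : c ≠ w)
    (hP : ∀ j ∈ S, j ≠ c → ¬ Rch G ((S ∪ E ∪ {w}) \ {c}) w j) {B' : Set V}
    (hB' : B' ⊆ insert c S) {v j : V} (hv : v ∈ B') (hj : j ∈ B')
    (h : Rch G (insert w (B' ∪ E)) v j) : Rch G (B' ∪ E) v j := by
  by_cases hvc : Rch G (B' ∪ E) v c
  · have : j ∈ {y | Rch G (B' ∪ E) v y ∨ Rch G ((S ∪ E ∪ {w}) \ {c}) w y} := by
      refine h.closed (Or.inl (Rch.refl _)) ?_
      rintro y (hy | hy) z hz hyz
      · by_cases hzw : z = w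
        · right; rw [hzw]; exact Rch.refl _
        · left
          have hz' : z ∈ B' ∪ E := hz.resolve_left hzw
          exact hy.trans (Rch.adj hyz (hy.mem (Or.inl hv)) hz')
      · by_cases hzc : z = c
        · left; rw [hzc]; exact hvc
        · right
          have hwm : w ∈ (S ∪ E ∪ {w}) \ {c} := ⟨Or.inr rfl, fun h => hcw h.symm⟩
          have hz' : z ∈ (S ∪ E ∪ {w}) \ {c} := by
            refine ⟨?_, hzc⟩
            rcases hz with hz | hz | hz
            · exact Or.inr hz
            · rcases hB' hz with h | h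
              · exact absurd h hzc
              · exact Or.inl (Or.inl h)
            · exact Or.inl (Or.inr hz)
          exact hy.trans (Rch.adj hyz (hy.mem hwm) hz')
    rcases this with h | h
    · exact h
    · exfalso
      have hwm : w ∈ (S ∪ E ∪ {w}) \ {c} := ⟨Or.inr rfl, fun h => hcw h.symm⟩
      have hjc : j ≠ c := fun hjc => (h.mem hwm).2 hjc
      exact hP j ((hB' hj).resolve_left hjc) hjc h
  · have : j ∈ {y | Rch G (B' ∪ E) v y} := by
      refine h.closed (Rch.refl _) ?_
      intro y hy z hz hyz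
      by_cases hzw : z = w
      · exfalso
        -- `v` is connected to `w` avoiding `c`
        have hvne : v ≠ c := fun h => hvc (h ▸ Rch.refl _)
        have hpath : Rch G ((S ∪ E ∪ {w}) \ {c}) v y := by
          have hgen : ∀ y, Rch G (B' ∪ E) v y → Rch G ((S ∪ E ∪ {w}) \ {c}) v y := by
            intro y hy
            induction hy with
            | refl => exact Rch.refl _
            | @tail a b hab hb ih =>
              have hab' : Rch G (B' ∪ E) v a := hab
              have hb' : Rch G (B' ∪ E) v b := hab'.trans (Rch.adj hb.1 hb.2.1 hb.2.2)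
              have hm : ∀ x, x ∈ B' ∪ E → x ≠ c → x ∈ (S ∪ E ∪ {w}) \ {c} := by
                rintro x (hx | hx) hxc
                · exact ⟨Or.inl (Or.inl ((hB' hx).resolve_left hxc)), hxc⟩
                · exact ⟨Or.inl (Or.inr hx), hxc⟩
              exact ih.trans (Rch.adj hb.1 (hm a hb.2.1 (fun h => hvc (h ▸ hab')))
                (hm b hb.2.2 (fun h => hvc (h ▸ hb'))))
          exact hgen y hy
        have hyc : y ≠ c := fun h => hvc (h ▸ hy)
        have hym : y ∈ (S ∪ E ∪ {w}) \ {c} := by
          rcases hy.mem (Or.inl hv) with h | h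
          · exact ⟨Or.inl (Or.inl ((hB' h).resolve_left hyc)), hyc⟩
          · exact ⟨Or.inl (Or.inr h), hyc⟩
        have hwv : Rch G ((S ∪ E ∪ {w}) \ {c}) w v := by
          refine Rch.trans (Rch.adj ?_ ⟨Or.inr rfl, fun h => hcw h.symm⟩ hym) hpath.symm
          rw [← hzw]; exact hyz.symm
        exact hP v ((hB' hv).resolve_left hvne) hvne hwv
      · have hz' : z ∈ B' ∪ E := hz.resolve_left hzw
        exact Rch.trans hy (Rch.adj hyz (Rch.mem hy (Or.inl hv)) hz')
    exact this

lemma not_rch_w (hcE : c ∉ E) (hcw : c ≠ w)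
    (hP : ∀ j ∈ S, j ≠ c → ¬ Rch G ((S ∪ E ∪ {w}) \ {c}) w j) {B' : Set V}
    (hB' : B' ⊆ insert c S) (hc : c ∉ B') {v : V} (hv : v ∈ B')
    (h : Rch G (insert w (B' ∪ E)) w v) : False := by
  have hvc : v ≠ c := fun h => hc (h ▸ hv)
  refine hP v ((hB' hv).resolve_left hvc) hvc (h.mono ?_)
  rintro x (hx | hx | hx)
  · exact ⟨Or.inr hx, fun h => hcw (h.symm.trans hx)⟩
  · have hxc : x ≠ c := fun h => hc (h ▸ hx)
    exact ⟨Or.inl (Or.inl ((hB' hx).resolve_left hxc)), hxc⟩
  · exact ⟨Or.inl (Or.inr hx), fun h => hcE (h ▸ hx)⟩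

/-- The relations between the coefficients of `x_w` and `y_w`. -/
lemma starstar (hcw : G.Adj c w) (hcE : c ∉ E) (hwS : w ∉ S)
    (hP : ∀ j ∈ S, j ≠ c → ¬ Rch G ((S ∪ E ∪ {w}) \ {c}) w j) {B' : Set V}
    (hB' : B' ⊆ insert c S) {α β : MvPolynomial (V × Bool) K}
    (h : Phi K G E (insert w B') (kl K {w} α) * X (Sum.inl (cls G E (insert w B') w)) +
      Phi K G E (insert w B') (kl K {w} β) = 0) :
    (c ∈ B' → Phi K G E B' α * X (Sum.inl (cls G E B' c)) + Phi K G E B' β = 0) ∧
    (c ∉ B' → Phi K G E B' α = 0 ∧ Phi K G E B' β = 0) := by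
  classical
  have hne : c ≠ w := hcw.ne
  have hwB' : w ∉ B' := fun h => by
    rcases hB' h with h | h
    · exact hne h.symm
    · exact hwS h
  have hins : insert w B' ∪ E = insert w (B' ∪ E) := Set.insert_union
  have hclsv : ∀ v ∈ B', cls G E (insert w B') v ∩ B' = cls G E B' v := by
    intro v hv
    ext j
    constructor
    · rintro ⟨⟨_, h2⟩, h3⟩
      rw [hins] at h2
      exact ⟨h3, rch_old hne hP hB' hv h3 h2⟩
    · rintro ⟨h1, h2⟩
      exact ⟨⟨Or.inr h1, h2.mono (Set.union_subset_union_left _ (Set.subset_insert _ _))⟩, h1⟩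
  have hcomp : ((kap K B').comp (Phi K G E (insert w B'))).comp (kl K {w}) = Phi K G E B' := by
    apply algHom_ext_vb
    · intro v
      rw [AlgHom.comp_apply, AlgHom.comp_apply]
      by_cases hvw : v = w
      · subst hvw
        rw [kl_X_mem _ (Set.mem_singleton v), map_zero, map_zero, Phi_notMem _ hwB']
      · rw [kl_single _ hvw]
        by_cases hv : v ∈ B'
        · rw [Phi_false (Set.mem_insert_of_mem w hv), map_mul, kap_inl, kap_inr_mem hv, hclsv v hv, Phi_false hv]
        · have hn : v ∉ insert w B' := by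
            rintro (h | h)
            · exact hvw h
            · exact hv h
          rw [Phi_notMem _ hn, map_zero, Phi_notMem _ hv]
    · intro v
      rw [AlgHom.comp_apply, AlgHom.comp_apply]
      by_cases hvw : v = w
      · subst hvw
        rw [kl_X_mem _ (Set.mem_singleton v), map_zero, map_zero, Phi_notMem _ hwB']
      · rw [kl_single _ hvw]
        by_cases hv : v ∈ B'
        · rw [Phi_true (Set.mem_insert_of_mem w hv), kap_inr_mem hv, Phi_true hv]
        · have hn : v ∉ insert w B' := by
            rintro (h | h)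
            · exact hvw h
            · exact hv h
          rw [Phi_notMem _ hn, map_zero, Phi_notMem _ hv]
  have hk : ∀ g, kap K B' (Phi K G E (insert w B') (kl K {w} g)) = Phi K G E B' g := fun g => by
    rw [← hcomp]; rfl
  have h1 := congrArg (kap K B') h
  rw [map_zero, map_add, map_mul, hk, hk, kap_inl] at h1
  constructor
  · intro hc
    have h2 : cls G E (insert w B') w ∩ B' = cls G E B' c := by
      rw [← hclsv c hc]
      congr 1
      exact cls_eq_of_rch (Rch.adj hcw.symm (Or.inl (Or.inl rfl)) (Or.inl (Or.inr hc)))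
    rw [h2] at h1
    exact h1
  · intro hc
    have h2 : cls G E (insert w B') w ∩ B' = ∅ := by
      rw [Set.eq_empty_iff_forall_notMem]
      rintro v ⟨⟨_, h3⟩, hv⟩
      rw [hins] at h3
      exact not_rch_w hcE hne hP hB' hc hv h3
    rw [h2] at h1
    let ε : MvPolynomial (Set V ⊕ V) K →ₐ[K] MvPolynomial (Set V ⊕ V) K :=
      aeval (Sum.elim (fun C => if C = ∅ then 0 else X (Sum.inl C)) (fun v => X (Sum.inr v)))
    have hε : ε.comp (Phi K G E B') = Phi K G E B' := by
      apply algHom_ext_vb
      · intro v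
        rw [AlgHom.comp_apply]
        by_cases hv : v ∈ B'
        · rw [Phi_false hv]
          have : cls G E B' v ≠ ∅ := fun h => by
            have := mem_cls_self (G := G) (E := E) hv
            rw [h] at this
            exact this
          simp [ε, this]
        · rw [Phi_notMem _ hv, map_zero]
      · intro v
        rw [AlgHom.comp_apply]
        by_cases hv : v ∈ B'
        · rw [Phi_true hv]; simp [ε]
        · rw [Phi_notMem _ hv, map_zero]
    have hε' : ∀ g, ε (Phi K G E B' g) = Phi K G E B' g := fun g => by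
      rw [← AlgHom.comp_apply, hε]
    have h3 := congrArg ε h1
    rw [map_zero, map_add, map_mul, hε', hε'] at h3
    have h4 : ε (X (Sum.inl ∅)) = 0 := by simp [ε]
    rw [h4, mul_zero, zero_add] at h3
    rw [h3, add_zero] at h1
    refine ⟨?_, h3⟩
    rcases mul_eq_zero.1 h1 with h | h
    · exact h
    · exact absurd h (X_ne_zero _)

end Pendant

end Q37.BinV
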