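import Pool.Agent.Q37.BinV.Ring

/-!
Division by `(x_c, y_c)`.
-/

set_option linter.unusedSectionVars false

open MvPolynomial Q14.Bei Q14.Mono

namespace Q37.BinV

variable {V : Type*} [Fintype V] [DecidableEq V] {K : Type*} [Field K]

noncomputable local instance : DecidableEq (Set V) := Classical.decEq _

/-- the vertices occurring in a monomial -/
def vs (m : (V × Bool) →₀ ℕ) : Set V := {v | m (v, false) ≠ 0 ∨ m (v, true) ≠ 0}

lemma mem_vs_of {m : (V × Bool) →₀ ℕ} {v : V} {b : Bool} (h : m (v, b) ≠ 0) : v ∈ vs m := by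
  cases b
  · exact Or.inl h
  · exact Or.inr h

lemma exists_of_mem_vs {m : (V × Bool) →₀ ℕ} {v : V} (h : v ∈ vs m) : ∃ b, m (v, b) ≠ 0 := by
  rcases h with h | h
  · exact ⟨_, h⟩
  · exact ⟨_, h⟩

lemma exists_split {m : (V × Bool) →₀ ℕ} {i : V × Bool} (h : m i ≠ 0) :
    ∃ m1, m = m1 + Finsupp.single i 1 := by
  have hle : Finsupp.single i 1 ≤ m := by rw [Finsupp.single_le_iff]; omega
  obtain ⟨m1, hm1⟩ := exists_add_of_le hle
  exact ⟨m1, by rw [hm1, add_comm]⟩

lemma monomial_split (m1 : (V × Bool) →₀ ℕ) (i : V × Bool) :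
    (monomial (m1 + Finsupp.single i 1) (1 : K)) = monomial m1 1 * X i := by
  rw [X, monomial_mul, one_mul]

variable {G : SimpleGraph V} {E B : Set V}

lemma Phi_monomial_zero {m : (V × Bool) →₀ ℕ} {v : V} (hv : v ∈ vs m) (hvB : v ∉ B) :
    Phi K G E B (monomial m 1) = 0 := by
  obtain ⟨b, hb⟩ := exists_of_mem_vs hv
  obtain ⟨m1, rfl⟩ := exists_split hb
  rw [monomial_split, map_mul, Phi_notMem _ hvB, mul_zero]

lemma kl_monomial {m : (V × Bool) →₀ ℕ} (h : vs m ⊆ B) (a : K) :
    kl K Bᶜ (monomial m a) = monomial m a := by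
  unfold kl
  rw [kill_monomial, if_pos]
  rintro ⟨v, b⟩ hv
  by_contra h0
  exact hv (h (mem_vs_of h0))

variable (G E) in
/-- The monomials whose class of `c` contains an `x`. -/
def Good (c : V) (m : (V × Bool) →₀ ℕ) : Prop :=
  c ∈ vs m ∧ ∃ j ∈ cls G E (vs m) c, m (j, false) ≠ 0

lemma Good.exists_pick {c : V} {m : (V × Bool) →₀ ℕ} (h : Good G E c m) :
    ∃ j, j ∈ cls G E (vs m) c ∧ m (j, false) ≠ 0 ∧ (j = c ∨ m (c, true) ≠ 0) := by
  obtain ⟨hc, j, hj, hj'⟩ := h
  by_cases h0 : m (c, false) ≠ 0
  · exact ⟨c, mem_cls_self hc, h0, Or.inl rfl⟩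
  · refine ⟨j, hj, hj', Or.inr ?_⟩
    rcases hc with hc | hc
    · exact absurd hc h0
    · exact hc

lemma Good.exists_div {c : V} {m : (V × Bool) →₀ ℕ} (h : Good G E c m) :
    ∃ m', ∀ B', Phi K G E B' (monomial m 1 - X (c, false) * monomial m' 1) = 0 := by
  obtain ⟨j, hj, hjm, hjc⟩ := h.exists_pick
  have hc : c ∈ vs m := h.1
  obtain ⟨m1, hm1⟩ := exists_split hjm
  have h1 : (m1 + (Finsupp.single (j, true) 1 : (V × Bool) →₀ ℕ)) (c, true) ≠ 0 := by
    rw [Finsupp.add_apply]
    rcases hjc with rfl | hjc
    · simp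
    · rw [hm1, Finsupp.add_apply] at hjc
      have : (Finsupp.single (j, false) 1 : (V × Bool) →₀ ℕ) (c, true) = 0 := by
        rw [Finsupp.single_apply, if_neg (by simp)]
      rw [this, add_zero] at hjc
      omega
  obtain ⟨m', hm'⟩ := exists_split h1
  refine ⟨m', fun B' => ?_⟩
  have key : X (c, true) * (monomial m (1 : K) - X (c, false) * monomial m' 1) =
      monomial m1 1 * minor K j c := by
    have e1 : (monomial m (1 : K)) = monomial m1 1 * X (j, false) := by
      rw [hm1, monomial_split]
    have e2 : (monomial m1 (1 : K)) * X (j, true) = monomial m' 1 * X (c, true) := by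
      rw [← monomial_split, ← monomial_split, hm']
    unfold minor
    rw [e1]
    linear_combination (X (c, false)) * e2
  by_cases hcB : c ∈ B'
  · have h2 := congrArg (Phi K G E B') key
    rw [map_mul, map_mul, Phi_true hcB] at h2
    have h3 : Phi K G E B' (monomial m1 1) * Phi K G E B' (minor K j c) = 0 := by
      by_cases hvs : vs m ⊆ B'
      · rw [Phi_minor, mul_zero]
        intro _ _
        exact (cls_eq_of_rch (hj.2.mono (Set.union_subset_union_left _ hvs))).symm
      · obtain ⟨v, hv, hvB⟩ := Set.not_subset.1 hvs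
        by_cases hvj : v = j
        · subst hvj
          rw [Phi_minor (fun h => absurd h hvB), mul_zero]
        · have : v ∈ vs m1 := by
            obtain ⟨b, hb⟩ := exists_of_mem_vs hv
            rw [hm1, Finsupp.add_apply] at hb
            have h0 : (Finsupp.single (j, false) 1 : (V × Bool) →₀ ℕ) (v, b) = 0 := by
              rw [Finsupp.single_apply, if_neg]
              intro h
              exact hvj (Prod.mk.inj h).1.symm
            rw [h0, add_zero] at hb
            exact mem_vs_of hb
          rw [Phi_monomial_zero this hvB, zero_mul]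
    rw [h3] at h2
    rcases mul_eq_zero.1 h2 with h | h
    · exact absurd h (X_ne_zero _)
    · exact h
  · rw [map_sub, map_mul, Phi_monomial_zero hc hcB, Phi_notMem _ hcB, zero_mul, sub_zero]

lemma basis_apply (m : (V × Bool) →₀ ℕ) :
    (monomial m (1 : K)) = basisMonomials (V × Bool) K m := by
  rw [coe_basisMonomials]

open Classical in
variable (K G E) in
/-- division by `x_c` -/
noncomputable def sgm (c : V) : MvPolynomial (V × Bool) K →ₗ[K] MvPolynomial (V × Bool) K :=
  (basisMonomials (V × Bool) K).constr K fun m =>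
    if h : Good G E c m then monomial (h.exists_div (K := K)).choose 1 else 0

lemma sgm_good {c : V} {m : (V × Bool) →₀ ℕ} (h : Good G E c m) (B' : Set V) :
    Phi K G E B' (monomial m 1 - X (c, false) * sgm K G E c (monomial m 1)) = 0 := by
  have e : sgm K G E c (monomial m 1) = monomial (h.exists_div (K := K)).choose 1 := by
    refine (congrArg (sgm K G E c) (basis_apply m)).trans ?_
    unfold sgm
    exact (Module.Basis.constr_basis _ _ _ _).trans (dif_pos h)
  rw [e]
  exact (h.exists_div (K := K)).choose_spec B'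

lemma sgm_bad {c : V} {m : (V × Bool) →₀ ℕ} (h : ¬ Good G E c m) :
    sgm K G E c (monomial m 1) = 0 := by
  refine (congrArg (sgm K G E c) (basis_apply m)).trans ?_
  unfold sgm
  exact (Module.Basis.constr_basis _ _ _ _).trans (dif_neg h)

open Classical in
/-- the bad part with given vertex set -/
noncomputable def bp (G : SimpleGraph V) (E : Set V) (c : V) (f : MvPolynomial (V × Bool) K)
    (B : Set V) : MvPolynomial (V × Bool) K :=
  ∑ m ∈ f.support.filter (fun m => ¬ Good G E c m ∧ vs m = B), monomial m (coeff m f)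

lemma Phi_sum (c : V) (f : MvPolynomial (V × Bool) K) (B' : Set V) :
    Phi K G E B' (f - X (c, false) * sgm K G E c f) = ∑ B : Set V, Phi K G E B' (bp G E c f B) := by
  classical
  have h1 : f = ∑ m ∈ f.support, coeff m f • monomial m (1 : K) := by
    conv_lhs => rw [← support_sum_monomial_coeff f]
    refine Finset.sum_congr rfl fun m _ => ?_
    rw [smul_monomial, smul_eq_mul, mul_one]
  have h2 : f - X (c, false) * sgm K G E c f = ∑ m ∈ f.support, coeff m f •
      (monomial m (1 : K) - X (c, false) * sgm K G E c (monomial m 1)) := by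
    conv_lhs => rw [h1]
    rw [map_sum, Finset.mul_sum, ← Finset.sum_sub_distrib]
    refine Finset.sum_congr rfl fun m _ => ?_
    rw [map_smul, smul_sub, mul_smul_comm]
  have h3 : Phi K G E B' (f - X (c, false) * sgm K G E c f) =
      ∑ m ∈ f.support.filter (fun m => ¬ Good G E c m), Phi K G E B' (monomial m (coeff m f)) := by
    rw [h2, map_sum, Finset.sum_filter]
    refine Finset.sum_congr rfl fun m _ => ?_
    by_cases hg : Good G E c m
    · rw [if_neg (not_not.2 hg), map_smul, sgm_good hg, smul_zero]
    · rw [if_pos hg, sgm_bad hg, mul_zero, sub_zero]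
      congr 1
      rw [smul_monomial, smul_eq_mul, mul_one]
  rw [h3, ← Finset.sum_fiberwise (f.support.filter (fun m => ¬ Good G E c m)) vs]
  refine Finset.sum_congr rfl fun B _ => ?_
  unfold bp
  rw [map_sum, Finset.filter_filter]

lemma Phi_bp_not_subset {c : V} {f : MvPolynomial (V × Bool) K} {B B' : Set V} (h : ¬ B ⊆ B') :
    Phi K G E B' (bp G E c f B) = 0 := by
  classical
  obtain ⟨v, hv, hvB⟩ := Set.not_subset.1 h
  unfold bp
  rw [map_sum]
  refine Finset.sum_eq_zero fun m hm => ?_
  rw [Finset.mem_filter] at hm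
  have : (monomial m (coeff m f)) = coeff m f • monomial m (1 : K) := by
    rw [smul_monomial, smul_eq_mul, mul_one]
  rw [this, map_smul, Phi_monomial_zero (hm.2.2 ▸ hv) hvB, smul_zero]

lemma Phi_bp_extend {c : V} {f : MvPolynomial (V × Bool) K} {B B' : Set V} (h : B ⊆ B')
    (h0 : Phi K G E B (bp G E c f B) = 0) : Phi K G E B' (bp G E c f B) = 0 := by
  classical
  have := Phi_extend h h0
  have e : kl K Bᶜ (bp G E c f B) = bp G E c f B := by
    unfold bp
    rw [map_sum]
    refine Finset.sum_congr rfl fun m hm => ?_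
    rw [Finset.mem_filter] at hm
    exact kl_monomial hm.2.2.le _
  rwa [e] at this

/-- The division property. -/
theorem sgm_spec {c : V} {U : Set V} {α β : MvPolynomial (V × Bool) K}
    (h1 : ∀ B ⊆ U, c ∈ B → Phi K G E B α * X (Sum.inl (cls G E B c)) + Phi K G E B β = 0)
    (h2 : ∀ B ⊆ U, c ∉ B → Phi K G E B β = 0) :
    ∀ B ⊆ U, Phi K G E B (β - X (c, false) * sgm K G E c β) = 0 := by
  classical
  have key : ∀ n : ℕ, ∀ B : Set V, B.ncard = n → B ⊆ U → Phi K G E B (bp G E c β B) = 0 := by
    intro n
    induction n using Nat.strong_induction_on with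
    | _ n ih =>
    intro B hB hBU
    have h3 : Phi K G E B (β - X (c, false) * sgm K G E c β) = Phi K G E B (bp G E c β B) := by
      rw [Phi_sum]
      refine Finset.sum_eq_single B (fun B1 _ hne => ?_) (fun h => absurd (Finset.mem_univ _) h)
      by_cases hsub : B1 ⊆ B
      · have hlt : B1.ncard < n := by
          rw [← hB]
          exact Set.ncard_lt_ncard (lt_of_le_of_ne hsub hne) (Set.toFinite _)
        exact Phi_bp_extend hsub (ih _ hlt B1 rfl (hsub.trans hBU))
      · exact Phi_bp_not_subset hsub
    by_cases hc : c ∈ B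
    · -- set `s = X (inl (cls c))` to zero
      let ε : MvPolynomial (Set V ⊕ V) K →ₐ[K] MvPolynomial (Set V ⊕ V) K :=
        aeval (Sum.elim (fun C => if C = cls G E B c then 0 else X (Sum.inl C))
          (fun v => X (Sum.inr v)))
      have hεs : ε (X (Sum.inl (cls G E B c))) = 0 := by simp [ε]
      have h4 : ε (Phi K G E B (bp G E c β B)) = Phi K G E B (bp G E c β B) := by
        unfold bp
        rw [map_sum, map_sum]
        refine Finset.sum_congr rfl fun m hm => ?_
        rw [Finset.mem_filter] at hm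
        obtain ⟨-, hbad, hvs⟩ := hm
        rw [monomial_eq, map_mul, map_mul]
        congr 1
        · have : ∀ a : K, Phi K G E B (C a) = C a := fun a => by
            rw [← algebraMap_eq, AlgHom.commutes, algebraMap_eq]
          rw [this, ← algebraMap_eq, AlgHom.commutes]
        · rw [Finsupp.prod, map_prod, map_prod]
          refine Finset.prod_congr rfl fun i hi => ?_
          rw [map_pow, map_pow]
          congr 1
          obtain ⟨v, b⟩ := i
          rw [Finsupp.mem_support_iff] at hi
          have hvB : v ∈ B := hvs ▸ mem_vs_of hi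
          cases b
          · rw [Phi_false hvB, map_mul]
            have hne : cls G E B v ≠ cls G E B c := by
              intro h
              apply hbad
              rw [Good, hvs]
              refine ⟨hc, v, ?_, hi⟩
              rw [← h]; exact mem_cls_self hvB
            simp [ε, hne]
          · rw [Phi_true hvB]
            simp [ε]
      rw [← h4, ← h3, map_sub, map_mul, Phi_false hc]
      have h5 : Phi K G E B β = - (Phi K G E B α * X (Sum.inl (cls G E B c))) := by
        have := h1 B hBU hc
        linear_combination this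
      rw [h5, map_sub, map_neg, map_mul, map_mul, map_mul, hεs]
      ring
    · rw [← h3, map_sub, map_mul, Phi_notMem _ hc, zero_mul, sub_zero]
      exact h2 B hBU hc
  intro B hB
  rw [Phi_sum]
  refine Finset.sum_eq_zero fun B1 _ => ?_
  by_cases hsub : B1 ⊆ B
  · exact Phi_bp_extend hsub (key _ B1 rfl (hsub.trans hB))
  · exact Phi_bp_not_subset hsub

theorem sgm_spec' {c : V} {U : Set V} {α β : MvPolynomial (V × Bool) K}
    (h1 : ∀ B ⊆ U, c ∈ B → Phi K G E B α * X (Sum.inl (cls G E B c)) + Phi K G E B β = 0)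
    (h2 : ∀ B ⊆ U, c ∉ B → Phi K G E B α = 0 ∧ Phi K G E B β = 0) :
    ∀ B ⊆ U, Phi K G E B (α + X (c, true) * sgm K G E c β) = 0 := by
  intro B hB
  have h3 := sgm_spec h1 (fun B hB hc => (h2 B hB hc).2) B hB
  by_cases hc : c ∈ B
  · rw [map_sub, map_mul, Phi_false hc] at h3
    rw [map_add, map_mul, Phi_true hc]
    have h4 := h1 B hB hc
    have h5 : (Phi K G E B α + X (Sum.inr c) * Phi K G E B (sgm K G E c β)) *
        X (Sum.inl (cls G E B c)) = 0 := by
      linear_combination h4 - h3
    rcases mul_eq_zero.1 h5 with h | h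
    · exact h
    · exact absurd h (X_ne_zero _)
  · rw [map_add, map_mul, Phi_notMem _ hc, (h2 B hB hc).1, zero_mul, add_zero]

end Q37.BinV
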